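import Pool.Agent.Lib.Sieve.Averages

/-!
# Upper bound for codegrees in the Goldbach graph

Vertices are written `x` for the even number `2 x`; two distinct vertices `x, u` are adjacent
when `x + u` and `|x - u|` are odd primes.
-/

namespace Pool.Agent.Lib.GoldbachGraph

open Finset Pool.Agent.Lib.Sieve

/-- Halved adjacency: `x + u` and `|x - u|` are odd primes. -/
def hadj (x u : ℕ) : Prop :=
  (x + u).Prime ∧ Odd (x + u) ∧ (Nat.dist x u).Prime ∧ Odd (Nat.dist x u)

instance (x u : ℕ) : Decidable (hadj x u) := by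
  unfold hadj
  infer_instance

theorem hadj_comm (x u : ℕ) : hadj x u ↔ hadj u x := by
  unfold hadj
  rw [add_comm x u, Nat.dist_comm x u]

/-- The number of common neighbours `1 ≤ x ≤ n`. -/
def codeg (n u v : ℕ) : ℕ := ((Finset.Icc 1 n).filter fun x => hadj x u ∧ hadj x v).card

/-- The weight `(1 - 1/p)^{-4}` for `p > 10`, and `1` otherwise. -/
noncomputable def g4 (p : ℕ) : ℝ := if 10 < p then ((1 - 1 / (p : ℝ)) ^ 4)⁻¹ else 1

theorem g4_ge_one (p : ℕ) : 1 ≤ g4 p := by
  unfold g4
  split_ifs with h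
  · have hp : (10 : ℝ) < p := by exact_mod_cast h
    have h1 : 0 < 1 - 1 / (p : ℝ) := by
      rw [sub_pos, div_lt_one (by linarith)]
      linarith
    have h2 : 1 - 1 / (p : ℝ) ≤ 1 := by
      have : 0 ≤ 1 / (p : ℝ) := by positivity
      linarith
    rw [one_le_inv₀ (by positivity)]
    exact pow_le_one₀ h1.le h2
  · exact le_rfl

/-- `G m = ∏_{p ∣ m, p > 10} (1 - 1/p)^{-4}`. -/
noncomputable def G (m : ℕ) : ℝ := ∏ p ∈ m.primeFactors, g4 p

theorem G_ge_one (m : ℕ) : 1 ≤ G m := by
  unfold G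
  have : ∀ p ∈ m.primeFactors, (1 : ℝ) ≤ g4 p := fun p _ => g4_ge_one p
  calc (1 : ℝ) = ∏ _p ∈ m.primeFactors, (1 : ℝ) := by simp
    _ ≤ ∏ p ∈ m.primeFactors, g4 p :=
      Finset.prod_le_prod (fun _ _ => zero_le_one) this

theorem prod_dvd_le_G {m : ℕ} (hm : m ≠ 0) (z : ℕ) :
    ∏ p ∈ sprimes 10 z, (if p ∣ m then g4 p else 1) ≤ G m := by
  rw [← Finset.prod_filter]
  unfold G
  have hsub : (sprimes 10 z).filter (fun p => p ∣ m) ⊆ m.primeFactors := by
    intro p hp
    rw [Finset.mem_filter, mem_sprimes] at hp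
    exact Nat.mem_primeFactors.mpr ⟨hp.1.1, hp.2, hm⟩
  rw [← Finset.prod_sdiff hsub]
  have h1 : 1 ≤ ∏ p ∈ m.primeFactors \ (sprimes 10 z).filter (fun p => p ∣ m), g4 p := by
    calc (1 : ℝ) = ∏ _p ∈ m.primeFactors \ (sprimes 10 z).filter (fun p => p ∣ m), (1 : ℝ) := by
          simp
      _ ≤ _ := Finset.prod_le_prod (fun _ _ => zero_le_one) fun p _ => g4_ge_one p
  exact le_mul_of_one_le_left
    (Finset.prod_nonneg fun p _ => zero_le_one.trans (g4_ge_one p)) h1

/-- The forbidden classes `± u, ± v`. -/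
def Om (u v : ℕ) (p : ℕ) : Finset (ZMod p) :=
  {(u : ZMod p), -(u : ZMod p), (v : ZMod p), -(v : ZMod p)}

theorem Om_card_le (u v p : ℕ) : (Om u v p).card ≤ 4 := Finset.card_le_four

theorem Om_card_eq {u v p : ℕ} (hp : p.Prime) (hp2 : 2 < p) (h1 : ¬ p ∣ u) (h2 : ¬ p ∣ v)
    (h3 : ¬ p ∣ Nat.dist u v) (h4 : ¬ p ∣ u + v) : (Om u v p).card = 4 := by
  have : Fact p.Prime := ⟨hp⟩
  have h20 : (2 : ZMod p) ≠ 0 := by
    intro h
    have : ((2 : ℕ) : ZMod p) = 0 := by exact_mod_cast h
    rw [ZMod.natCast_eq_zero_iff] at this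
    have := Nat.le_of_dvd (by norm_num) this
    omega
  have hu : (u : ZMod p) ≠ 0 := fun h => h1 ((ZMod.natCast_eq_zero_iff _ _).mp h)
  have hv : (v : ZMod p) ≠ 0 := fun h => h2 ((ZMod.natCast_eq_zero_iff _ _).mp h)
  have huv : (u : ZMod p) ≠ v := by
    intro h
    apply h3
    rcases le_total u v with huv | huv
    · rw [Nat.dist_eq_sub_of_le huv, ← ZMod.natCast_eq_zero_iff, Nat.cast_sub huv, h, sub_self]
    · rw [Nat.dist_eq_sub_of_le_right huv, ← ZMod.natCast_eq_zero_iff, Nat.cast_sub huv, h,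
        sub_self]
  have huv' : (u : ZMod p) ≠ -v := by
    intro h
    apply h4
    rw [← ZMod.natCast_eq_zero_iff, Nat.cast_add, h, neg_add_cancel]
  have e1 : (u : ZMod p) ≠ -u := by
    intro h
    have h5 : (2 : ZMod p) * u = 0 := by linear_combination h
    rcases mul_eq_zero.mp h5 with h | h
    · exact h20 h
    · exact hu h
  have e2 : (v : ZMod p) ≠ -v := by
    intro h
    have h5 : (2 : ZMod p) * v = 0 := by linear_combination h
    rcases mul_eq_zero.mp h5 with h | h
    · exact h20 h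
    · exact hv h
  have e3 : -(u : ZMod p) ≠ v := by
    intro h
    exact huv' (by rw [← h, neg_neg])
  have e4 : -(u : ZMod p) ≠ -v := by
    intro h
    exact huv (neg_injective h)
  unfold Om
  rw [Finset.card_insert_of_notMem, Finset.card_insert_of_notMem, Finset.card_insert_of_notMem,
    Finset.card_singleton]
  · simpa using e2
  · simp only [Finset.mem_insert, Finset.mem_singleton, not_or]
    exact ⟨e3, e4⟩
  · simp only [Finset.mem_insert, Finset.mem_singleton, not_or]
    exact ⟨e1, huv, huv'⟩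

theorem density_le {u v : ℕ} (z : ℕ) (hu : u ≠ 0) (hv : v ≠ 0) (huv : u ≠ v) :
    ∏ p ∈ sprimes 10 z, (1 - dens (Om u v) p)
      ≤ (∏ p ∈ sprimes 10 z, (1 - 1 / (p : ℝ))) ^ 4 *
        (G u * G v * G (Nat.dist u v) * G (u + v)) := by
  have hd : Nat.dist u v ≠ 0 := by
    intro h
    exact huv (Nat.eq_of_dist_eq_zero h)
  have hs : u + v ≠ 0 := by omega
  have h1 : ∏ p ∈ sprimes 10 z, (1 - dens (Om u v) p)
      ≤ ∏ p ∈ sprimes 10 z, ((1 - 1 / (p : ℝ)) ^ 4 *
        ((if p ∣ u then g4 p else 1) * (if p ∣ v then g4 p else 1) *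
          (if p ∣ Nat.dist u v then g4 p else 1) * (if p ∣ u + v then g4 p else 1))) := by
    apply Finset.prod_le_prod
    · intro p hp
      rw [mem_sprimes] at hp
      have := dens_le_half (Om_card_le u v p) (by omega : 2 * 4 + 2 < p)
      linarith
    · intro p hp
      rw [mem_sprimes] at hp
      have hp10 : (10 : ℝ) < p := by exact_mod_cast hp.2.1
      have ht0 : 0 < 1 / (p : ℝ) := by positivity
      have ht1 : 1 / (p : ℝ) ≤ 1 / 10 := one_div_le_one_div_of_le (by norm_num) hp10.le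
      have hpow : 0 < (1 - 1 / (p : ℝ)) ^ 4 := by
        apply pow_pos
        linarith
      have hg : (1 - 1 / (p : ℝ)) ^ 4 * g4 p = 1 := by
        unfold g4
        rw [if_pos hp.2.1, mul_inv_cancel₀ hpow.ne']
      have hdens0 := dens_nonneg (Om u v) p
      have hg1 := g4_ge_one p
      have i1 : (1 : ℝ) ≤ if p ∣ u then g4 p else 1 := by split_ifs <;> linarith
      have i2 : (1 : ℝ) ≤ if p ∣ v then g4 p else 1 := by split_ifs <;> linarith
      have i3 : (1 : ℝ) ≤ if p ∣ Nat.dist u v then g4 p else 1 := by split_ifs <;> linarith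
      have i4 : (1 : ℝ) ≤ if p ∣ u + v then g4 p else 1 := by split_ifs <;> linarith
      by_cases hdiv : p ∣ u ∨ p ∣ v ∨ p ∣ Nat.dist u v ∨ p ∣ u + v
      · -- a special prime
        have h2 : g4 p ≤ (if p ∣ u then g4 p else 1) * (if p ∣ v then g4 p else 1) *
            (if p ∣ Nat.dist u v then g4 p else 1) * (if p ∣ u + v then g4 p else 1) := by
          have key : ∀ a b c d : ℝ, 1 ≤ a → 1 ≤ b → 1 ≤ c → 1 ≤ d →
              (g4 p ≤ a ∨ g4 p ≤ b ∨ g4 p ≤ c ∨ g4 p ≤ d) → g4 p ≤ a * b * c * d := by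
            intro a b c d ha hb hc hd' h
            have hab : 1 ≤ a * b := one_le_mul_of_one_le_of_one_le ha hb
            have habc : 1 ≤ a * b * c := one_le_mul_of_one_le_of_one_le hab hc
            rcases h with h | h | h | h
            · calc g4 p ≤ a := h
                _ ≤ a * b := le_mul_of_one_le_right (by linarith) hb
                _ ≤ a * b * c := le_mul_of_one_le_right (by linarith) hc
                _ ≤ a * b * c * d := le_mul_of_one_le_right (by linarith) hd'
            · calc g4 p ≤ b := h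
                _ ≤ a * b := le_mul_of_one_le_left (by linarith) ha
                _ ≤ a * b * c := le_mul_of_one_le_right (by linarith) hc
                _ ≤ a * b * c * d := le_mul_of_one_le_right (by linarith) hd'
            · calc g4 p ≤ c := h
                _ ≤ a * b * c := le_mul_of_one_le_left (by linarith) hab
                _ ≤ a * b * c * d := le_mul_of_one_le_right (by linarith) hd'
            · calc g4 p ≤ d := h
                _ ≤ a * b * c * d := le_mul_of_one_le_left (by linarith) habc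
          apply key _ _ _ _ i1 i2 i3 i4
          rcases hdiv with h | h | h | h
          · left; rw [if_pos h]
          · right; left; rw [if_pos h]
          · right; right; left; rw [if_pos h]
          · right; right; right; rw [if_pos h]
        have h3 := mul_le_mul_of_nonneg_left h2 hpow.le
        rw [hg] at h3
        linarith
      · push Not at hdiv
        have hcard := Om_card_eq hp.1 (by omega) hdiv.1 hdiv.2.1 hdiv.2.2.1 hdiv.2.2.2
        have hdens : dens (Om u v) p = 4 * (1 / (p : ℝ)) := by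
          unfold Sieve.dens
          rw [hcard]
          push_cast
          ring
        rw [if_neg hdiv.1, if_neg hdiv.2.1, if_neg hdiv.2.2.1, if_neg hdiv.2.2.2, hdens]
        have hb := one_add_mul_le_pow (a := -(1 / (p : ℝ))) (by linarith) 4
        push_cast at hb
        have h5 : (1 : ℝ) + -(1 / (p : ℝ)) = 1 - 1 / p := by ring
        rw [h5] at hb
        linarith
  refine h1.trans ?_
  rw [Finset.prod_mul_distrib, Finset.prod_pow, Finset.prod_mul_distrib, Finset.prod_mul_distrib,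
    Finset.prod_mul_distrib]
  have hnn : 0 ≤ (∏ p ∈ sprimes 10 z, (1 - 1 / (p : ℝ))) ^ 4 := by positivity
  apply mul_le_mul_of_nonneg_left _ hnn
  have hpos : ∀ m : ℕ, 0 ≤ ∏ p ∈ sprimes 10 z, (if p ∣ m then g4 p else 1) := fun m =>
    Finset.prod_nonneg fun p _ => by
      have := g4_ge_one p
      split_ifs <;> linarith
  have hG : ∀ m : ℕ, 0 ≤ G m := fun m => zero_le_one.trans (G_ge_one m)
  have a1 := prod_dvd_le_G hu z
  have a2 := prod_dvd_le_G hv z
  have a3 := prod_dvd_le_G hd z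
  have a4 := prod_dvd_le_G hs z
  have b1 := mul_le_mul a1 a2 (hpos v) (hG u)
  have b2 := mul_le_mul b1 a3 (hpos _) (mul_nonneg (hG _) (hG _))
  exact mul_le_mul b2 a4 (hpos _) (mul_nonneg (mul_nonneg (hG _) (hG _)) (hG _))

theorem prod_sprimes_le (z : ℕ) (hz : 2 ≤ z) :
    ∏ p ∈ sprimes 10 z, (1 - 1 / (p : ℝ)) ≤ 5 / Real.log z := by
  have hz' : (2 : ℝ) ≤ z := by exact_mod_cast hz
  have hlog : 0 < Real.log z := Real.log_pos (by linarith)
  have h1 := prod_one_sub_inv_le z hz
  have hsplit : ∏ p ∈ primesUpTo z, (1 - 1 / (p : ℝ))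
      = (∏ p ∈ sprimes 10 z, (1 - 1 / (p : ℝ))) *
        ∏ p ∈ (primesUpTo z).filter (fun p => ¬ 10 < p), (1 - 1 / (p : ℝ)) := by
    unfold sprimes
    rw [Finset.prod_filter_mul_prod_filter_not]
  have hfac : ∀ p ∈ primesUpTo 10, 0 ≤ (1 - 1 / (p : ℝ)) ∧ (1 - 1 / (p : ℝ)) ≤ 1 := by
    intro p hp
    have hp1 : (1 : ℝ) < p := by exact_mod_cast (mem_primesUpTo.mp hp).1.one_lt
    constructor
    · rw [sub_nonneg, div_le_one (by linarith)]
      linarith
    · have : 0 ≤ 1 / (p : ℝ) := by positivity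
      linarith
  have hsmall : (8 : ℝ) / 35 ≤ ∏ p ∈ (primesUpTo z).filter (fun p => ¬ 10 < p), (1 - 1 / (p : ℝ)) := by
    have h2 : (primesUpTo z).filter (fun p => ¬ 10 < p) ⊆ primesUpTo 10 := by
      intro p hp
      rw [Finset.mem_filter, mem_primesUpTo] at hp
      rw [mem_primesUpTo]
      exact ⟨hp.1.1, by omega⟩
    have h3 : ∏ p ∈ primesUpTo 10, (1 - 1 / (p : ℝ)) = 8 / 35 := by
      have : primesUpTo 10 = {2, 3, 5, 7} := by decide
      rw [this]
      norm_num
    rw [← h3]
    rw [← Finset.prod_sdiff h2]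
    have h4 : 0 ≤ ∏ p ∈ (primesUpTo z).filter (fun p => ¬ 10 < p), (1 - 1 / (p : ℝ)) :=
      Finset.prod_nonneg fun p hp => (hfac p (h2 hp)).1
    have h5 : ∏ p ∈ primesUpTo 10 \ (primesUpTo z).filter (fun p => ¬ 10 < p), (1 - 1 / (p : ℝ)) ≤ 1 :=
      Finset.prod_le_one (fun p hp => (hfac p (Finset.mem_sdiff.mp hp).1).1)
        (fun p hp => (hfac p (Finset.mem_sdiff.mp hp).1).2)
    nlinarith
  have hXnn : 0 ≤ ∏ p ∈ sprimes 10 z, (1 - 1 / (p : ℝ)) := by
    apply Finset.prod_nonneg
    intro p hp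
    have hp1 : (1 : ℝ) < p := by exact_mod_cast (mem_sprimes.mp hp).1.one_lt
    rw [sub_nonneg, div_le_one (by linarith)]
    linarith
  rw [hsplit] at h1
  have h6 := mul_le_mul_of_nonneg_left hsmall hXnn
  have h7 : (∏ p ∈ sprimes 10 z, (1 - 1 / (p : ℝ))) * (8 / 35) ≤ 1 / Real.log z := h6.trans h1
  have h8 : (5 : ℝ) / Real.log z = 5 * (1 / Real.log z) := by ring
  rw [h8]
  have h9 : 0 ≤ 1 / Real.log z := by positivity
  linarith

/-- Sieve upper bound for the codegree. -/
theorem codeg_le (n z u v : ℕ) (hz : 2 ≤ z) (hn : z ^ 818 ≤ n) (hu : u ≠ 0) (hv : v ≠ 0)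
    (huv : u ≠ v) :
    (codeg n u v : ℝ) ≤ 1875 * n / (Real.log z) ^ 4 *
      (G u * G v * G (Nat.dist u v) * G (u + v)) + 7 * z := by
  classical
  have hz' : (2 : ℝ) ≤ z := by exact_mod_cast hz
  have hlog : 0 < Real.log z := Real.log_pos (by linarith)
  -- split into sifted elements and exceptional elements
  set S1 := (Finset.Icc 1 n).filter (fun x : ℕ => ∀ p ∈ sprimes 10 z, ((x : ℤ) : ZMod p) ∉ Om u v p)
    with hS1
  have hsub : (Finset.Icc 1 n).filter (fun x => hadj x u ∧ hadj x v)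
      ⊆ S1 ∪ (Finset.Icc 1 z ∪ (Finset.Icc (u - z) (u + z) ∪ Finset.Icc (v - z) (v + z))) := by
    intro x hx
    rw [Finset.mem_filter, Finset.mem_Icc] at hx
    obtain ⟨⟨hx1, hxn⟩, ⟨pu, _, du, _⟩, ⟨pv, _, dv, _⟩⟩ := hx
    by_cases c1 : x ≤ z
    · simp only [Finset.mem_union, Finset.mem_Icc]
      right; left
      exact ⟨hx1, c1⟩
    by_cases c2 : Nat.dist x u ≤ z
    · simp only [Finset.mem_union, Finset.mem_Icc]
      right; right; left
      unfold Nat.dist at c2
      omega
    by_cases c3 : Nat.dist x v ≤ z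
    · simp only [Finset.mem_union, Finset.mem_Icc]
      right; right; right
      unfold Nat.dist at c3
      omega
    rw [Finset.mem_union]
    left
    rw [hS1, Finset.mem_filter, Finset.mem_Icc]
    refine ⟨⟨hx1, hxn⟩, ?_⟩
    intro p hp
    rw [mem_sprimes] at hp
    have notdvd : ∀ q : ℕ, q.Prime → z < q → ¬ p ∣ q := by
      intro q hq hzq hpq
      have := (Nat.prime_dvd_prime_iff_eq hp.1 hq).mp hpq
      omega
    have n1 := notdvd _ pu (by omega)
    have n2 := notdvd _ du (by omega)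
    have n3 := notdvd _ pv (by omega)
    have n4 := notdvd _ dv (by omega)
    have hdist : ∀ w : ℕ, ((x : ℤ) : ZMod p) = (w : ZMod p) → p ∣ Nat.dist x w := by
      intro w hw
      rw [Int.cast_natCast] at hw
      rcases le_total x w with h | h
      · rw [Nat.dist_eq_sub_of_le h, ← ZMod.natCast_eq_zero_iff, Nat.cast_sub h, hw, sub_self]
      · rw [Nat.dist_eq_sub_of_le_right h, ← ZMod.natCast_eq_zero_iff, Nat.cast_sub h, hw,
          sub_self]
    have hsum : ∀ w : ℕ, ((x : ℤ) : ZMod p) = -(w : ZMod p) → p ∣ x + w := by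
      intro w hw
      rw [Int.cast_natCast] at hw
      rw [← ZMod.natCast_eq_zero_iff, Nat.cast_add, hw, neg_add_cancel]
    unfold Om
    simp only [Finset.mem_insert, Finset.mem_singleton, not_or]
    exact ⟨fun h => n2 (hdist u h), fun h => n1 (hsum u h), fun h => n4 (hdist v h),
      fun h => n3 (hsum v h)⟩
  have hcard1 : codeg n u v ≤ S1.card + (z + ((2 * z + 1) + (2 * z + 1))) := by
    unfold codeg
    refine (Finset.card_le_card hsub).trans ?_
    refine (Finset.card_union_le _ _).trans ?_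
    apply Nat.add_le_add_left
    refine (Finset.card_union_le _ _).trans ?_
    apply Nat.add_le_add
    · rw [Nat.card_Icc]
      omega
    refine (Finset.card_union_le _ _).trans ?_
    apply Nat.add_le_add <;>
    · rw [Nat.card_Icc]
      omega
  -- the sieve
  have hS1card : (S1.card : ℝ) = ∑ x ∈ Finset.Ico (1 : ℤ) (1 + n),
      ∏ p ∈ sprimes 10 z, (1 - chi (Om u v) p x) := by
    have hind : ∀ x : ℤ, ∏ p ∈ sprimes 10 z, (1 - chi (Om u v) p x)
        = if ∀ p ∈ sprimes 10 z, (x : ZMod p) ∉ Om u v p then 1 else 0 := by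
      intro x
      by_cases h : ∀ p ∈ sprimes 10 z, (x : ZMod p) ∉ Om u v p
      · rw [if_pos h]
        apply Finset.prod_eq_one
        intro p hp
        unfold chi
        rw [if_neg (h p hp)]
        ring
      · rw [if_neg h]
        push Not at h
        obtain ⟨p, hp, hx⟩ := h
        apply Finset.prod_eq_zero hp
        unfold chi
        rw [if_pos hx]
        ring
    simp_rw [hind]
    rw [← Finset.sum_filter, Finset.sum_const, nsmul_eq_mul, mul_one]
    norm_cast
    rw [hS1]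
    apply Finset.card_bij (fun (x : ℕ) _ => (x : ℤ))
    · intro x hx
      rw [Finset.mem_filter, Finset.mem_Icc] at hx
      rw [Finset.mem_filter, Finset.mem_Ico]
      exact ⟨⟨by omega, by omega⟩, hx.2⟩
    · intro a _ b _ h
      exact_mod_cast h
    · intro b hb
      rw [Finset.mem_filter, Finset.mem_Ico] at hb
      refine ⟨b.toNat, ?_, Int.toNat_of_nonneg (by omega)⟩
      rw [Finset.mem_filter, Finset.mem_Icc]
      refine ⟨⟨by omega, by omega⟩, ?_⟩
      rw [Int.toNat_of_nonneg (by omega)]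
      exact hb.2
  have hfund := (fundamental_sum (k := 4) (z := z) (Ω := Om u v) hz
    (fun p _ _ _ => Om_card_le u v p) 1 n (by simpa using hn)).2
  have e1 : (2 * 4 + 2 : ℕ) = 10 := rfl
  rw [e1] at hfund
  rw [← hS1card] at hfund
  have h2 := density_le z hu hv huv
  have h3 := prod_sprimes_le z hz
  set GG := G u * G v * G (Nat.dist u v) * G (u + v) with hGG
  have hGG0 : 0 ≤ GG := by
    have hG : ∀ m : ℕ, 0 ≤ G m := fun m => zero_le_one.trans (G_ge_one m)
    exact mul_nonneg (mul_nonneg (mul_nonneg (hG _) (hG _)) (hG _)) (hG _)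
  have hXnn : 0 ≤ ∏ p ∈ sprimes 10 z, (1 - 1 / (p : ℝ)) := by
    apply Finset.prod_nonneg
    intro p hp
    have hp1 : (1 : ℝ) < p := by exact_mod_cast (mem_sprimes.mp hp).1.one_lt
    rw [sub_nonneg, div_le_one (by linarith)]
    linarith
  have h4 : (∏ p ∈ sprimes 10 z, (1 - 1 / (p : ℝ))) ^ 4 ≤ (5 / Real.log z) ^ 4 :=
    pow_le_pow_left₀ hXnn h3 4
  have h5 : (S1.card : ℝ) ≤ 3 * n * ((5 / Real.log z) ^ 4 * GG) := by
    refine hfund.trans ?_
    apply mul_le_mul_of_nonneg_left _ (by positivity)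
    exact h2.trans (mul_le_mul_of_nonneg_right h4 hGG0)
  have h6 : 3 * (n : ℝ) * ((5 / Real.log z) ^ 4 * GG) = 1875 * n / (Real.log z) ^ 4 * GG := by
    rw [div_pow]
    ring
  rw [h6] at h5
  have h7 : (codeg n u v : ℝ) ≤ S1.card + (z + ((2 * z + 1) + (2 * z + 1))) := by
    exact_mod_cast hcard1
  linarith

end Pool.Agent.Lib.GoldbachGraph
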