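import Pool.Agent.Lib.GoldbachGraph.Degree

/-!
# A dense core of the Goldbach graph in which all balls of radius two are large
-/

namespace Pool.Agent.Lib.GoldbachGraph

open Finset Filter Pool.Agent.Lib.Sieve

section core

variable (R : ℕ → ℕ → Prop) [DecidableRel R]

/-- The number of ordered related pairs in `S × S`. -/
def npairs (S : Finset ℕ) : ℕ := ∑ x ∈ S, (S.filter fun y => R x y).card

variable {R}

theorem npairs_erase (hsymm : ∀ x y, R x y → R y x) (hirr : ∀ x, ¬ R x x) {S : Finset ℕ} {x : ℕ}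
    (hx : x ∈ S) :
    npairs R S = npairs R (S.erase x) + 2 * (S.filter fun y => R x y).card := by
  unfold npairs
  have h1 : ∀ y, (S.filter fun w => R y w).card
      = ((S.erase x).filter fun w => R y w).card + if R y x then 1 else 0 := by
    intro y
    conv_lhs => rw [← Finset.insert_erase hx]
    rw [Finset.filter_insert]
    split_ifs with h
    · rw [Finset.card_insert_of_notMem]
      intro hmem
      exact Finset.notMem_erase x S (Finset.mem_filter.mp hmem).1
    · rfl
  rw [← Finset.add_sum_erase S _ hx]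
  have h2 : ∑ y ∈ S.erase x, (S.filter fun w => R y w).card
      = ∑ y ∈ S.erase x, ((S.erase x).filter fun w => R y w).card
        + (S.filter fun y => R x y).card := by
    rw [Finset.sum_congr rfl fun y _ => h1 y, Finset.sum_add_distrib]
    congr 1
    have h3 := h1 x
    rw [if_neg (hirr x), add_zero] at h3
    rw [h3, Finset.card_filter]
    refine Finset.sum_congr rfl fun y _ => ?_
    by_cases h : R y x
    · rw [if_pos h, if_pos (hsymm _ _ h)]
    · rw [if_neg h, if_neg fun h' => h (hsymm _ _ h')]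
  rw [h2]
  ring

/-- Existence of a subset with large minimum degree and few lost pairs. -/
theorem exists_core (hsymm : ∀ x y, R x y → R y x) (hirr : ∀ x, ¬ R x x) (V0 : Finset ℕ)
    (d : ℝ) (hd : 0 ≤ d) :
    ∃ S ⊆ V0, (∀ x ∈ S, d ≤ ((S.filter fun y => R x y).card : ℝ)) ∧
      (npairs R V0 : ℝ) - 2 * d * V0.card ≤ npairs R S := by
  obtain ⟨S, hS, hmax⟩ := Finset.exists_max_image V0.powerset
    (fun S => (npairs R S : ℝ) - 2 * d * S.card) ⟨V0, Finset.mem_powerset_self V0⟩
  rw [Finset.mem_powerset] at hS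
  refine ⟨S, hS, ?_, ?_⟩
  · intro x hx
    have h1 := hmax (S.erase x) (Finset.mem_powerset.mpr ((Finset.erase_subset _ _).trans hS))
    rw [npairs_erase hsymm hirr hx] at h1
    have h2 : ((S.erase x).card : ℝ) = S.card - 1 := by
      rw [Finset.card_erase_of_mem hx, Nat.cast_sub (Finset.card_pos.mpr ⟨x, hx⟩)]
      simp
    rw [h2] at h1
    push_cast at h1
    linarith
  · have h1 := hmax V0 (Finset.mem_powerset_self V0)
    have h2 : 0 ≤ 2 * d * (S.card : ℝ) := by positivity
    linarith

end core

theorem hadj_irrefl (x : ℕ) : ¬ hadj x x := by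
  unfold hadj
  rw [Nat.dist_self]
  intro h
  exact Nat.not_prime_zero h.2.2.1

theorem npairs_Icc (n : ℕ) : npairs hadj (Finset.Icc 1 n) = ∑ x ∈ Finset.Icc 1 n, hdeg n x := rfl

/-- Removing the vertices of a set `B` removes at most twice the sum of their degrees. -/
theorem npairs_filter_ge (n : ℕ) (p : ℕ → Prop) [DecidablePred p] :
    npairs hadj (Finset.Icc 1 n) ≤ npairs hadj ((Finset.Icc 1 n).filter p)
      + 2 * ∑ x ∈ (Finset.Icc 1 n).filter (fun x => ¬ p x), hdeg n x := by
  set I := Finset.Icc 1 n with hI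
  set A := I.filter p with hA
  set B := I.filter (fun x => ¬ p x) with hB
  have h1 : ∀ x, (I.filter fun y => hadj x y).card
      = (A.filter fun y => hadj x y).card + (B.filter fun y => hadj x y).card := by
    intro x
    rw [hA, hB, Finset.filter_filter, Finset.filter_filter]
    rw [← Finset.card_filter_add_card_filter_not (s := I.filter fun y => hadj x y) (p := p),
      Finset.filter_filter, Finset.filter_filter]
    simp only [and_comm]
  have h2 : npairs hadj I = ∑ x ∈ A, (I.filter fun y => hadj x y).card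
      + ∑ x ∈ B, (I.filter fun y => hadj x y).card := by
    unfold npairs
    rw [hA, hB, Finset.sum_filter_add_sum_filter_not]
  have h3 : ∑ x ∈ A, (I.filter fun y => hadj x y).card
      = npairs hadj A + ∑ x ∈ A, (B.filter fun y => hadj x y).card := by
    unfold npairs
    rw [← Finset.sum_add_distrib]
    exact Finset.sum_congr rfl fun x _ => h1 x
  have h4 : ∑ x ∈ A, (B.filter fun y => hadj x y).card ≤ ∑ y ∈ B, hdeg n y := by
    simp_rw [Finset.card_filter]
    rw [Finset.sum_comm]
    refine Finset.sum_le_sum fun y _ => ?_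
    unfold hdeg
    rw [Finset.card_filter]
    have h5 : ∑ x ∈ A, (if hadj x y then 1 else 0) = ∑ x ∈ A, (if hadj y x then 1 else 0) := by
      refine Finset.sum_congr rfl fun x _ => ?_
      simp only [hadj_comm x y]
    rw [h5]
    exact Finset.sum_le_sum_of_subset (Finset.filter_subset _ _)
  have h6 : ∑ x ∈ B, (I.filter fun y => hadj x y).card = ∑ y ∈ B, hdeg n y := rfl
  rw [h2, h3, h6]
  omega

/-- The vertices within distance two inside `S`. -/
def ball2 (S : Finset ℕ) (x : ℕ) : Finset ℕ :=
  S.filter fun w => ∃ u ∈ S, hadj x u ∧ hadj u w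

/-- The dense core. -/
theorem eventually_core (δ : ℝ) (hδ : 0 < δ) : ∃ c : ℝ, 0 < c ∧ ∀ᶠ n : ℕ in atTop,
    ∃ S ⊆ Finset.Icc 1 n,
      (npairs hadj (Finset.Icc 1 n) : ℝ) - δ / 2 * ((n : ℝ) ^ 2 / (32 * (Real.log n) ^ 2))
        ≤ npairs hadj S ∧
      ∀ x ∈ S, c * n ≤ ((ball2 S x).card : ℝ) := by
  have hC1 := C1_pos
  have hC3 := C3_pos
  have hCG := CG_pos
  set B : ℝ := max 1 (256 * C1 * CG / δ) with hB
  have hB1 : 1 ≤ B := le_max_left _ _
  have hB2 : 256 * C1 * CG / δ ≤ B := le_max_right _ _
  have hB0 : 0 < B := by linarith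
  refine ⟨(δ / 256) ^ 4 / (C3 * B ^ 2), by positivity, ?_⟩
  filter_upwards [eventually_hdeg_le, eventually_local_moment, eventually_ge_atTop 3]
    with n hdeg' hloc hn
  have hn0 : (0 : ℝ) < n := by
    have : 0 < n := by omega
    exact_mod_cast this
  have hlogn : 0 < Real.log n := by
    apply Real.log_pos
    have : 1 < n := by omega
    exact_mod_cast this
  classical
  set I := Finset.Icc 1 n with hI
  set V0 := I.filter (fun x => G x ≤ B) with hV0
  set d : ℝ := δ * n / (256 * (Real.log n) ^ 2) with hd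
  have hd0 : 0 < d := by positivity
  obtain ⟨S, hSV, hSdeg, hSp⟩ := exists_core (R := hadj) (fun x y h => (hadj_comm x y).mp h)
    hadj_irrefl V0 d hd0.le
  have hSI : S ⊆ I := hSV.trans (Finset.filter_subset _ _)
  refine ⟨S, hSI, ?_, ?_⟩
  · -- counting pairs
    have h1 := npairs_filter_ge n (fun x => G x ≤ B)
    have h2 : (npairs hadj I : ℝ) ≤ npairs hadj V0
        + 2 * ∑ x ∈ I.filter (fun x => ¬ G x ≤ B), (hdeg n x : ℝ) := by
      exact_mod_cast h1
    have h3 : ∑ x ∈ I.filter (fun x => ¬ G x ≤ B), (hdeg n x : ℝ)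
        ≤ C1 * (n / (Real.log n) ^ 2) * (CG * n / B) := by
      calc ∑ x ∈ I.filter (fun x => ¬ G x ≤ B), (hdeg n x : ℝ)
          ≤ ∑ x ∈ I.filter (fun x => ¬ G x ≤ B),
              C1 * (n / (Real.log n) ^ 2) * (G x ^ 8 / B) := by
            refine Finset.sum_le_sum fun x hx => ?_
            rw [Finset.mem_filter] at hx
            refine (hdeg' x hx.1).trans ?_
            apply mul_le_mul_of_nonneg_left _ (by positivity)
            rw [le_div_iff₀ hB0]
            have hGB : B ≤ G x := le_of_lt (not_le.mp hx.2)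
            have hG1 := G_ge_one x
            have h4 : G x * B ≤ G x * G x := mul_le_mul_of_nonneg_left hGB (by linarith)
            have h5 : G x * G x ≤ G x ^ 8 := by
              rw [← sq]
              exact pow_le_pow_right₀ hG1 (by norm_num)
            linarith
        _ = C1 * (n / (Real.log n) ^ 2) * ((∑ x ∈ I.filter (fun x => ¬ G x ≤ B), G x ^ 8) / B) := by
            rw [← Finset.mul_sum, Finset.sum_div]
        _ ≤ C1 * (n / (Real.log n) ^ 2) * (CG * n / B) := by
            apply mul_le_mul_of_nonneg_left _ (by positivity)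
            apply div_le_div_of_nonneg_right _ hB0.le
            refine le_trans ?_ (sum_G_pow n)
            apply Finset.sum_le_sum_of_subset_of_nonneg (Finset.filter_subset _ _)
            intro x _ _
            exact Gpow_nonneg x
    have h4 : 2 * (C1 * (n / (Real.log n) ^ 2) * (CG * n / B))
        ≤ δ / 4 * ((n : ℝ) ^ 2 / (32 * (Real.log n) ^ 2)) := by
      have h5 : 256 * C1 * CG ≤ B * δ := by
        rwa [div_le_iff₀ hδ] at hB2
      have h6 : C1 * CG / B ≤ δ / 256 := by
        rw [div_le_iff₀ hB0]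
        linarith
      have h7 : 2 * (C1 * (n / (Real.log n) ^ 2) * (CG * n / B))
          = 2 * ((n : ℝ) ^ 2 / (Real.log n) ^ 2) * (C1 * CG / B) := by
        field_simp
      have h8 : δ / 4 * ((n : ℝ) ^ 2 / (32 * (Real.log n) ^ 2))
          = 2 * ((n : ℝ) ^ 2 / (Real.log n) ^ 2) * (δ / 256) := by
        field_simp
        norm_num
      rw [h7, h8]
      exact mul_le_mul_of_nonneg_left h6 (by positivity)
    have h5 : 2 * d * (V0.card : ℝ) ≤ δ / 4 * ((n : ℝ) ^ 2 / (32 * (Real.log n) ^ 2)) := by
      have h6 : (V0.card : ℝ) ≤ n := by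
        have : V0.card ≤ n := by
          refine (Finset.card_filter_le _ _).trans ?_
          rw [hI, Nat.card_Icc]
          omega
        exact_mod_cast this
      calc 2 * d * (V0.card : ℝ) ≤ 2 * d * n := mul_le_mul_of_nonneg_left h6 (by positivity)
        _ = δ / 4 * ((n : ℝ) ^ 2 / (32 * (Real.log n) ^ 2)) := by
            rw [hd]
            field_simp
            norm_num
    linarith
  · -- balls of radius two
    intro x hx
    have hxV := Finset.mem_filter.mp (hSV hx)
    set cc : ℕ → ℕ := fun w => (S.filter fun u => hadj x u ∧ hadj u w).card with hcc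
    have hccle : ∀ w, cc w ≤ codeg n x w := by
      intro w
      apply Finset.card_le_card
      intro u hu
      rw [Finset.mem_filter] at hu ⊢
      exact ⟨hSI hu.1, (hadj_comm x u).mp hu.2.1, hu.2.2⟩
    have hsum : d ^ 2 ≤ ∑ w ∈ S, (cc w : ℝ) := by
      have h1 : ∑ w ∈ S, cc w = ∑ u ∈ S.filter (fun u => hadj x u), (S.filter fun w => hadj u w).card := by
        simp only [hcc]
        simp_rw [Finset.card_filter]
        rw [Finset.sum_comm, Finset.sum_filter]
        refine Finset.sum_congr rfl fun u _ => ?_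
        by_cases h : hadj x u
        · simp [h]
        · simp [h]
      have h2 : ∑ w ∈ S, (cc w : ℝ)
          = ∑ u ∈ S.filter (fun u => hadj x u), ((S.filter fun w => hadj u w).card : ℝ) := by
        exact_mod_cast h1
      rw [h2]
      calc d ^ 2 = d * d := sq d
        _ ≤ ((S.filter fun u => hadj x u).card : ℝ) * d :=
            mul_le_mul_of_nonneg_right (hSdeg x hx) hd0.le
        _ = ∑ _u ∈ S.filter (fun u => hadj x u), d := by rw [Finset.sum_const, nsmul_eq_mul]
        _ ≤ _ := Finset.sum_le_sum fun u hu => hSdeg u (Finset.mem_filter.mp hu).1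
    have hsupp : ∑ w ∈ S, (cc w : ℝ) = ∑ w ∈ ball2 S x, (cc w : ℝ) := by
      unfold ball2
      rw [Finset.sum_filter]
      refine Finset.sum_congr rfl fun w _ => ?_
      split_ifs with h
      · rfl
      · have : cc w = 0 := by
          simp only [hcc, Finset.card_eq_zero]
          apply Finset.filter_eq_empty_iff.mpr
          intro u hu hh
          exact h ⟨u, hu, hh⟩
        rw [this]
        simp
    have hcs := sq_sum_le_card_mul_sum_sq (s := ball2 S x) (f := fun w => (cc w : ℝ))
    have hsq : ∑ w ∈ ball2 S x, (cc w : ℝ) ^ 2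
        ≤ C3 * G x ^ 2 * ((n : ℝ) ^ 3 / (Real.log n) ^ 8) := by
      refine le_trans ?_ (hloc x hxV.1)
      have hsub : ball2 S x ⊆ I := (Finset.filter_subset _ _).trans hSI
      refine le_trans (Finset.sum_le_sum fun w _ => ?_)
        (Finset.sum_le_sum_of_subset_of_nonneg hsub fun w _ _ => by positivity)
      apply pow_le_pow_left₀ (Nat.cast_nonneg _)
      exact_mod_cast hccle w
    have hGB : G x ^ 2 ≤ B ^ 2 :=
      pow_le_pow_left₀ (zero_le_one.trans (G_ge_one x)) hxV.2 2
    have hsq' : ∑ w ∈ ball2 S x, (cc w : ℝ) ^ 2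
        ≤ C3 * B ^ 2 * ((n : ℝ) ^ 3 / (Real.log n) ^ 8) := by
      refine hsq.trans ?_
      apply mul_le_mul_of_nonneg_right _ (by positivity)
      exact mul_le_mul_of_nonneg_left hGB hC3.le
    have hfin : (d ^ 2) ^ 2 ≤ (ball2 S x).card * (C3 * B ^ 2 * ((n : ℝ) ^ 3 / (Real.log n) ^ 8)) := by
      calc (d ^ 2) ^ 2 ≤ (∑ w ∈ S, (cc w : ℝ)) ^ 2 :=
            pow_le_pow_left₀ (by positivity) hsum 2
        _ = (∑ w ∈ ball2 S x, (cc w : ℝ)) ^ 2 := by rw [hsupp]
        _ ≤ _ := hcs
        _ ≤ _ := mul_le_mul_of_nonneg_left hsq' (Nat.cast_nonneg _)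
    have hX : 0 < C3 * B ^ 2 * ((n : ℝ) ^ 3 / (Real.log n) ^ 8) := by positivity
    have heq : (δ / 256) ^ 4 / (C3 * B ^ 2) * n * (C3 * B ^ 2 * ((n : ℝ) ^ 3 / (Real.log n) ^ 8))
        = (d ^ 2) ^ 2 := by
      rw [hd]
      field_simp
    rw [← heq] at hfin
    exact le_of_mul_le_mul_right hfin hX

end Pool.Agent.Lib.GoldbachGraph
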