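import Pool.Agent.Lib.GoldbachGraph.Proportion

/-!
# Upper bounds for degrees, and the second moment at a vertex
-/

namespace Pool.Agent.Lib.GoldbachGraph

open Finset Filter Pool.Agent.Lib.Sieve

/-- The forbidden classes `± u`. -/
def Om2 (u : ℕ) (p : ℕ) : Finset (ZMod p) := {(u : ZMod p), -(u : ZMod p)}

theorem Om2_card_le (u p : ℕ) : (Om2 u p).card ≤ 4 :=
  (Finset.card_le_two).trans (by norm_num)

theorem Om2_card_eq {u p : ℕ} (hp : p.Prime) (hp2 : 2 < p) (h1 : ¬ p ∣ u) :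
    (Om2 u p).card = 2 := by
  have : Fact p.Prime := ⟨hp⟩
  have h20 : (2 : ZMod p) ≠ 0 := by
    intro h
    have : ((2 : ℕ) : ZMod p) = 0 := by exact_mod_cast h
    rw [ZMod.natCast_eq_zero_iff] at this
    have := Nat.le_of_dvd (by norm_num) this
    omega
  have hu : (u : ZMod p) ≠ 0 := fun h => h1 ((ZMod.natCast_eq_zero_iff _ _).mp h)
  have e1 : (u : ZMod p) ≠ -u := by
    intro h
    have h5 : (2 : ZMod p) * u = 0 := by linear_combination h
    rcases mul_eq_zero.mp h5 with h | h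
    · exact h20 h
    · exact hu h
  unfold Om2
  exact Finset.card_pair e1

theorem density2_le {u : ℕ} (z : ℕ) (hu : u ≠ 0) :
    ∏ p ∈ sprimes 10 z, (1 - Sieve.dens (Om2 u) p)
      ≤ (∏ p ∈ sprimes 10 z, (1 - 1 / (p : ℝ))) ^ 2 * G u := by
  have h1 : ∏ p ∈ sprimes 10 z, (1 - Sieve.dens (Om2 u) p)
      ≤ ∏ p ∈ sprimes 10 z, ((1 - 1 / (p : ℝ)) ^ 2 * (if p ∣ u then g4 p else 1)) := by
    apply Finset.prod_le_prod
    · intro p hp
      rw [mem_sprimes] at hp
      have := dens_le_half (Om2_card_le u p) (by omega : 2 * 4 + 2 < p)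
      linarith
    · intro p hp
      rw [mem_sprimes] at hp
      have hp10 : (10 : ℝ) < p := by exact_mod_cast hp.2.1
      have ht0 : 0 < 1 / (p : ℝ) := by positivity
      have ht1 : 1 / (p : ℝ) ≤ 1 / 10 := one_div_le_one_div_of_le (by norm_num) hp10.le
      have hb : 0 < 1 - 1 / (p : ℝ) := by linarith
      have hb1 : 1 - 1 / (p : ℝ) ≤ 1 := by linarith
      have hdens0 := dens_nonneg (Om2 u) p
      by_cases hdiv : p ∣ u
      · rw [if_pos hdiv]
        have h4 : (1 - 1 / (p : ℝ)) ^ 4 * g4 p = 1 := by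
          unfold g4
          rw [if_pos hp.2.1, mul_inv_cancel₀ (pow_pos hb 4).ne']
        have h5 : (1 - 1 / (p : ℝ)) ^ 4 ≤ (1 - 1 / (p : ℝ)) ^ 2 :=
          pow_le_pow_of_le_one hb.le hb1 (by norm_num)
        have h6 := mul_le_mul_of_nonneg_right h5 (zero_le_one.trans (g4_ge_one p))
        linarith
      · rw [if_neg hdiv, mul_one]
        have hdens : Sieve.dens (Om2 u) p = 2 * (1 / (p : ℝ)) := by
          unfold Sieve.dens
          rw [Om2_card_eq hp.1 (by omega) hdiv]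
          push_cast
          ring
        rw [hdens]
        nlinarith [sq_nonneg (1 / (p : ℝ))]
  refine h1.trans ?_
  rw [Finset.prod_mul_distrib, Finset.prod_pow]
  exact mul_le_mul_of_nonneg_left (prod_dvd_le_G hu z) (by positivity)

/-- Sieve upper bound for the degree. -/
theorem hdeg_le (n z u : ℕ) (hz : 2 ≤ z) (hn : z ^ 818 ≤ n) (hu : u ≠ 0) :
    (hdeg n u : ℝ) ≤ 75 * n / (Real.log z) ^ 2 * G u + 7 * z := by
  classical
  have hz' : (2 : ℝ) ≤ z := by exact_mod_cast hz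
  have hlog : 0 < Real.log z := Real.log_pos (by linarith)
  set S1 := (Finset.Icc 1 n).filter (fun x : ℕ => ∀ p ∈ sprimes 10 z, ((x : ℤ) : ZMod p) ∉ Om2 u p)
    with hS1
  have hsub : (Finset.Icc 1 n).filter (fun x => hadj u x)
      ⊆ S1 ∪ (Finset.Icc 1 z ∪ Finset.Icc (u - z) (u + z)) := by
    intro x hx
    rw [Finset.mem_filter, Finset.mem_Icc, hadj_comm] at hx
    obtain ⟨⟨hx1, hxn⟩, ⟨pu, _, du, _⟩⟩ := hx
    by_cases c1 : x ≤ z
    · simp only [Finset.mem_union, Finset.mem_Icc]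
      right; left
      exact ⟨hx1, c1⟩
    by_cases c2 : Nat.dist x u ≤ z
    · simp only [Finset.mem_union, Finset.mem_Icc]
      right; right
      unfold Nat.dist at c2
      omega
    rw [Finset.mem_union]
    left
    rw [hS1, Finset.mem_filter, Finset.mem_Icc]
    refine ⟨⟨hx1, hxn⟩, ?_⟩
    intro p hp
    rw [mem_sprimes] at hp
    have notdvd : ∀ q : ℕ, q.Prime → z < q → ¬ p ∣ q := by
      intro q hq hzq hpq
      have := (Nat.prime_dvd_prime_iff_eq hp.1 hq).mp hpq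
      omega
    have n1 := notdvd _ pu (by omega)
    have n2 := notdvd _ du (by omega)
    have hdist : ∀ w : ℕ, ((x : ℤ) : ZMod p) = (w : ZMod p) → p ∣ Nat.dist x w := by
      intro w hw
      rw [Int.cast_natCast] at hw
      rcases le_total x w with h | h
      · rw [Nat.dist_eq_sub_of_le h, ← ZMod.natCast_eq_zero_iff, Nat.cast_sub h, hw, sub_self]
      · rw [Nat.dist_eq_sub_of_le_right h, ← ZMod.natCast_eq_zero_iff, Nat.cast_sub h, hw,
          sub_self]
    have hsum : ∀ w : ℕ, ((x : ℤ) : ZMod p) = -(w : ZMod p) → p ∣ x + w := by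
      intro w hw
      rw [Int.cast_natCast] at hw
      rw [← ZMod.natCast_eq_zero_iff, Nat.cast_add, hw, neg_add_cancel]
    unfold Om2
    simp only [Finset.mem_insert, Finset.mem_singleton, not_or]
    exact ⟨fun h => n2 (hdist u h), fun h => n1 (hsum u h)⟩
  have hcard1 : hdeg n u ≤ S1.card + (z + (2 * z + 1)) := by
    unfold hdeg
    refine (Finset.card_le_card hsub).trans ?_
    refine (Finset.card_union_le _ _).trans ?_
    apply Nat.add_le_add_left
    refine (Finset.card_union_le _ _).trans ?_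
    apply Nat.add_le_add <;>
    · rw [Nat.card_Icc]
      omega
  have hS1card : (S1.card : ℝ) = ∑ x ∈ Finset.Ico (1 : ℤ) (1 + n),
      ∏ p ∈ sprimes 10 z, (1 - chi (Om2 u) p x) := by
    have hind : ∀ x : ℤ, ∏ p ∈ sprimes 10 z, (1 - chi (Om2 u) p x)
        = if ∀ p ∈ sprimes 10 z, (x : ZMod p) ∉ Om2 u p then 1 else 0 := by
      intro x
      by_cases h : ∀ p ∈ sprimes 10 z, (x : ZMod p) ∉ Om2 u p
      · rw [if_pos h]
        apply Finset.prod_eq_one
        intro p hp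
        unfold chi
        rw [if_neg (h p hp)]
        ring
      · rw [if_neg h]
        push Not at h
        obtain ⟨p, hp, hx⟩ := h
        apply Finset.prod_eq_zero hp
        unfold chi
        rw [if_pos hx]
        ring
    simp_rw [hind]
    rw [← Finset.sum_filter, Finset.sum_const, nsmul_eq_mul, mul_one]
    norm_cast
    rw [hS1]
    apply Finset.card_bij (fun (x : ℕ) _ => (x : ℤ))
    · intro x hx
      rw [Finset.mem_filter, Finset.mem_Icc] at hx
      rw [Finset.mem_filter, Finset.mem_Ico]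
      exact ⟨⟨by omega, by omega⟩, hx.2⟩
    · intro a _ b _ h
      exact_mod_cast h
    · intro b hb
      rw [Finset.mem_filter, Finset.mem_Ico] at hb
      refine ⟨b.toNat, ?_, Int.toNat_of_nonneg (by omega)⟩
      rw [Finset.mem_filter, Finset.mem_Icc]
      refine ⟨⟨by omega, by omega⟩, ?_⟩
      rw [Int.toNat_of_nonneg (by omega)]
      exact hb.2
  have hfund := (fundamental_sum (k := 4) (z := z) (Ω := Om2 u) hz
    (fun p _ _ _ => Om2_card_le u p) 1 n (by simpa using hn)).2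
  have e1 : (2 * 4 + 2 : ℕ) = 10 := rfl
  rw [e1] at hfund
  rw [← hS1card] at hfund
  have h2 := density2_le z hu
  have h3 := prod_sprimes_le z hz
  have hG0 : 0 ≤ G u := zero_le_one.trans (G_ge_one u)
  have hXnn : 0 ≤ ∏ p ∈ sprimes 10 z, (1 - 1 / (p : ℝ)) := by
    apply Finset.prod_nonneg
    intro p hp
    have hp1 : (1 : ℝ) < p := by exact_mod_cast (mem_sprimes.mp hp).1.one_lt
    rw [sub_nonneg, div_le_one (by linarith)]
    linarith
  have h4 : (∏ p ∈ sprimes 10 z, (1 - 1 / (p : ℝ))) ^ 2 ≤ (5 / Real.log z) ^ 2 :=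
    pow_le_pow_left₀ hXnn h3 2
  have h5 : (S1.card : ℝ) ≤ 3 * n * ((5 / Real.log z) ^ 2 * G u) := by
    refine hfund.trans ?_
    apply mul_le_mul_of_nonneg_left _ (by positivity)
    exact h2.trans (mul_le_mul_of_nonneg_right h4 hG0)
  have h6 : 3 * (n : ℝ) * ((5 / Real.log z) ^ 2 * G u) = 75 * n / (Real.log z) ^ 2 * G u := by
    rw [div_pow]
    ring
  rw [h6] at h5
  have h7 : (hdeg n u : ℝ) ≤ S1.card + (z + (2 * z + 1)) := by
    exact_mod_cast hcard1
  linarith

/-- The constant in the degree bound. -/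
noncomputable def C1 : ℝ := 75 * 1636 ^ 2 + 1

theorem C1_pos : 0 < C1 := by
  unfold C1
  positivity

theorem eventually_hdeg_le : ∀ᶠ n : ℕ in atTop, ∀ u ∈ Finset.Icc 1 n,
    (hdeg n u : ℝ) ≤ C1 * (n / (Real.log n) ^ 2) * G u := by
  filter_upwards [eventually_rpow, eventually_ge_atTop (2 ^ 1636)] with n hrp hn u hu
  rw [Finset.mem_Icc] at hu
  have hn1 : (1 : ℕ) ≤ n := le_trans (Nat.one_le_two_pow) hn
  have hn0 : (0 : ℝ) < n := by exact_mod_cast hn1
  set t : ℝ := (n : ℝ) ^ ((1 : ℝ) / 1636) with ht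
  have ht2 : 2 ≤ t := by
    have h1 : ((2 : ℝ) ^ 1636) ≤ n := by exact_mod_cast hn
    have h2 : (2 : ℝ) = ((2 : ℝ) ^ 1636) ^ ((1 : ℝ) / 1636) := by
      rw [← Real.rpow_natCast, ← Real.rpow_mul (by norm_num)]
      norm_num
    rw [h2]
    exact Real.rpow_le_rpow (by positivity) h1 (by norm_num)
  have htt : (n : ℝ) ^ ((1 : ℝ) / 818) = t ^ 2 := by
    rw [ht, ← Real.rpow_natCast, ← Real.rpow_mul hn0.le]
    norm_num
  set z : ℕ := ⌊(n : ℝ) ^ ((1 : ℝ) / 818)⌋₊ with hz
  have hzle : (z : ℝ) ≤ (n : ℝ) ^ ((1 : ℝ) / 818) := Nat.floor_le (by positivity)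
  have hzge : t ≤ z := by
    have h1 : (n : ℝ) ^ ((1 : ℝ) / 818) < z + 1 := Nat.lt_floor_add_one _
    rw [htt] at h1
    nlinarith
  have hz2 : 2 ≤ z := by
    have : (2 : ℝ) ≤ z := ht2.trans hzge
    exact_mod_cast this
  have hzn : z ^ 818 ≤ n := by
    have h1 : (z : ℝ) ^ 818 ≤ n := by
      calc (z : ℝ) ^ 818 ≤ ((n : ℝ) ^ ((1 : ℝ) / 818)) ^ 818 :=
            pow_le_pow_left₀ (Nat.cast_nonneg _) hzle _
        _ = n := by
            rw [← Real.rpow_natCast, ← Real.rpow_mul hn0.le]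
            norm_num
    exact_mod_cast h1
  have h := hdeg_le n z u hz2 hzn (by omega)
  have hlogn1 : 1 < Real.log n := by
    rw [Real.lt_log_iff_exp_lt hn0]
    have h1 : 4 ≤ n := le_trans (by
      calc (4 : ℕ) = 2 ^ 2 := by norm_num
        _ ≤ 2 ^ 1636 := Nat.pow_le_pow_right (by norm_num) (by norm_num)) hn
    have h2 : (4 : ℝ) ≤ n := by exact_mod_cast h1
    have := Real.exp_one_lt_d9
    linarith
  have hlogn : 0 < Real.log n := by linarith
  have hlogz : Real.log n / 1636 ≤ Real.log z := by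
    have h1 : Real.log t ≤ Real.log z := Real.log_le_log (by linarith) hzge
    rw [ht, Real.log_rpow hn0] at h1
    linarith
  have hG1 := G_ge_one u
  have h1 : 75 * (n : ℝ) / (Real.log z) ^ 2 ≤ 75 * 1636 ^ 2 * (n / (Real.log n) ^ 2) := by
    have h2 : (Real.log n / 1636) ^ 2 ≤ (Real.log z) ^ 2 :=
      pow_le_pow_left₀ (by positivity) hlogz 2
    calc 75 * (n : ℝ) / (Real.log z) ^ 2 ≤ 75 * (n : ℝ) / (Real.log n / 1636) ^ 2 :=
          div_le_div_of_nonneg_left (by positivity) (by positivity) h2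
      _ = 75 * 1636 ^ 2 * (n / (Real.log n) ^ 2) := by
          rw [div_pow]
          field_simp
  have h3 : 7 * (z : ℝ) ≤ (n / (Real.log n) ^ 2) * G u := by
    have h4 : 7 * (z : ℝ) ≤ n / (Real.log n) ^ 2 := by
      rw [le_div_iff₀ (by positivity)]
      refine le_trans ?_ hrp
      have h5 : (Real.log n) ^ 2 ≤ (Real.log n) ^ 4 := pow_le_pow_right₀ hlogn1.le (by norm_num)
      exact mul_le_mul (by linarith) h5 (by positivity) (by positivity)
    have h5 : 0 ≤ (n : ℝ) / (Real.log n) ^ 2 := by positivity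
    nlinarith
  have h6 : 75 * (n : ℝ) / (Real.log z) ^ 2 * G u
      ≤ 75 * 1636 ^ 2 * (n / (Real.log n) ^ 2) * G u :=
    mul_le_mul_of_nonneg_right h1 (by linarith)
  calc (hdeg n u : ℝ) ≤ 75 * n / (Real.log z) ^ 2 * G u + 7 * z := h
    _ ≤ 75 * 1636 ^ 2 * (n / (Real.log n) ^ 2) * G u + (n / (Real.log n) ^ 2) * G u :=
        add_le_add h6 h3
    _ = C1 * (n / (Real.log n) ^ 2) * G u := by
        unfold C1
        ring

/-- The constant of the second moment at a vertex. -/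
noncomputable def C3 : ℝ := 1 + (1875 * 1636 ^ 4 + 1) ^ 2 * (5 * (1 + CG))

theorem C3_pos : 0 < C3 := by
  unfold C3
  have := CG_pos
  positivity

/-- Second moment of the codegree at a fixed vertex. -/
theorem eventually_local_moment : ∀ᶠ n : ℕ in atTop, ∀ u ∈ Finset.Icc 1 n,
    ∑ v ∈ Finset.Icc 1 n, (codeg n u v : ℝ) ^ 2
      ≤ C3 * G u ^ 2 * ((n : ℝ) ^ 3 / (Real.log n) ^ 8) := by
  filter_upwards [eventually_codeg_le, eventually_log_pow, eventually_ge_atTop 3]
    with n hcod hlog8 hn u hu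
  have hn0 : (0 : ℝ) < n := by
    have : 0 < n := by omega
    exact_mod_cast this
  have hlogn : 0 < Real.log n := by
    apply Real.log_pos
    have : 1 < n := by omega
    exact_mod_cast this
  have hG1 := G_ge_one u
  set A : ℝ := (1875 * 1636 ^ 4 + 1) * (n / (Real.log n) ^ 4) with hA
  have hA0 : 0 ≤ A := by positivity
  have hpt : ∀ v ∈ Finset.Icc 1 n, (codeg n u v : ℝ) ^ 2
      ≤ (if u = v then (n : ℝ) ^ 2 else 0) +
        A ^ 2 * G u ^ 2 * (G v ^ 8 + G (Nat.dist u v) ^ 8 + G (u + v) ^ 8) := by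
    intro v hv
    have hnn : 0 ≤ A ^ 2 * G u ^ 2 * (G v ^ 8 + G (Nat.dist u v) ^ 8 + G (u + v) ^ 8) := by
      have h2 := Gpow_nonneg v
      have h3 := Gpow_nonneg (Nat.dist u v)
      have h4 := Gpow_nonneg (u + v)
      positivity
    by_cases huv : u = v
    · rw [if_pos huv]
      have h1 : (codeg n u v : ℝ) ≤ n := by
        have : codeg n u v ≤ n := by
          unfold codeg
          refine (Finset.card_filter_le _ _).trans ?_
          rw [Nat.card_Icc]
          omega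
        exact_mod_cast this
      have h2 : (codeg n u v : ℝ) ^ 2 ≤ (n : ℝ) ^ 2 := pow_le_pow_left₀ (Nat.cast_nonneg _) h1 2
      linarith
    · rw [if_neg huv, zero_add]
      have h1 := hcod u hu v hv huv
      have h2 : (codeg n u v : ℝ) ^ 2
          ≤ (A * (G u * G v * G (Nat.dist u v) * G (u + v))) ^ 2 :=
        pow_le_pow_left₀ (Nat.cast_nonneg _) h1 2
      refine h2.trans ?_
      have e : (A * (G u * G v * G (Nat.dist u v) * G (u + v))) ^ 2
          = A ^ 2 * G u ^ 2 * (G v * G (Nat.dist u v) * G (u + v)) ^ 2 := by ring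
      rw [e]
      apply mul_le_mul_of_nonneg_left _ (by positivity)
      have key : ∀ a b c : ℝ, 1 ≤ a → 1 ≤ b → 1 ≤ c →
          (a * b * c) ^ 2 ≤ a ^ 8 + b ^ 8 + c ^ 8 := by
        intro a b c ha hb hc
        have hc1 : 1 ≤ c ^ 2 := one_le_pow₀ hc
        have h3 : (a * b * c) ^ 2 ≤ (a ^ 2 * b ^ 2) ^ 2 / 2 + (c ^ 2) ^ 2 / 2 := by
          nlinarith [sq_nonneg (a ^ 2 * b ^ 2 - c ^ 2)]
        have h4 : (a ^ 2 * b ^ 2) ^ 2 ≤ a ^ 8 / 2 + b ^ 8 / 2 := by
          nlinarith [sq_nonneg (a ^ 4 - b ^ 4)]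
        have h5 : (c ^ 2) ^ 2 ≤ c ^ 8 := by
          have : (c ^ 2) ^ 2 = c ^ 4 := by ring
          rw [this]
          exact pow_le_pow_right₀ hc (by norm_num)
        have h6 : 0 ≤ a ^ 8 := by positivity
        have h7 : 0 ≤ b ^ 8 := by positivity
        have h8 : 0 ≤ c ^ 8 := by positivity
        linarith
      exact key _ _ _ (G_ge_one _) (G_ge_one _) (G_ge_one _)
  refine (Finset.sum_le_sum hpt).trans ?_
  rw [Finset.sum_add_distrib, Finset.sum_ite_eq, if_pos hu, ← Finset.mul_sum,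
    Finset.sum_add_distrib, Finset.sum_add_distrib]
  have hS := SG_le n (by omega)
  have hS2 := SG_le (2 * n) (by omega)
  push_cast at hS2
  rw [Finset.mem_Icc] at hu
  have a2 : ∑ v ∈ Finset.Icc 1 n, G v ^ 8 ≤ SG n :=
    sum_le_SG (fun v => v) (fun v hv => (Finset.mem_Icc.mp hv).2) (fun a _ b _ h => h)
  have a3 : ∑ v ∈ Finset.Icc 1 n, G (Nat.dist u v) ^ 8 ≤ SG n + SG n := by
    rw [← Finset.sum_filter_add_sum_filter_not (Finset.Icc 1 n) (fun v => v ≤ u)]
    apply add_le_add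
    · apply sum_le_SG
      · intro v hv
        rw [Finset.mem_filter, Finset.mem_Icc] at hv
        unfold Nat.dist
        omega
      · intro a ha b hb hab
        rw [Finset.mem_filter, Finset.mem_Icc] at ha hb
        unfold Nat.dist at hab
        omega
    · apply sum_le_SG
      · intro v hv
        rw [Finset.mem_filter, Finset.mem_Icc] at hv
        unfold Nat.dist
        omega
      · intro a ha b hb hab
        rw [Finset.mem_filter, Finset.mem_Icc] at ha hb
        unfold Nat.dist at hab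
        omega
  have a4 : ∑ v ∈ Finset.Icc 1 n, G (u + v) ^ 8 ≤ SG (2 * n) := by
    apply sum_le_SG
    · intro v hv
      rw [Finset.mem_Icc] at hv
      omega
    · intro a _ b _ hab
      omega
  have h5 : ∑ v ∈ Finset.Icc 1 n, G v ^ 8 + ∑ v ∈ Finset.Icc 1 n, G (Nat.dist u v) ^ 8
      + ∑ v ∈ Finset.Icc 1 n, G (u + v) ^ 8 ≤ 5 * (1 + CG) * n := by
    linarith
  have h6 := mul_le_mul_of_nonneg_left h5 (by positivity : 0 ≤ A ^ 2 * G u ^ 2)
  have h7 : A ^ 2 * G u ^ 2 * (5 * (1 + CG) * n)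
      = (1875 * 1636 ^ 4 + 1) ^ 2 * (5 * (1 + CG)) * G u ^ 2 *
        ((n : ℝ) ^ 3 / (Real.log n) ^ 8) := by
    rw [hA]
    field_simp
  have h8 : (n : ℝ) ^ 2 ≤ G u ^ 2 * ((n : ℝ) ^ 3 / (Real.log n) ^ 8) := by
    have h9 : (n : ℝ) ^ 2 ≤ (n : ℝ) ^ 3 / (Real.log n) ^ 8 := by
      rw [le_div_iff₀ (by positivity)]
      calc (n : ℝ) ^ 2 * (Real.log n) ^ 8 ≤ (n : ℝ) ^ 2 * n :=
            mul_le_mul_of_nonneg_left hlog8 (by positivity)
        _ = (n : ℝ) ^ 3 := by ring
    have h10 : (1 : ℝ) ≤ G u ^ 2 := one_le_pow₀ hG1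
    have h11 : 0 ≤ (n : ℝ) ^ 3 / (Real.log n) ^ 8 := by positivity
    nlinarith
  rw [h7] at h6
  have h12 : C3 * G u ^ 2 * ((n : ℝ) ^ 3 / (Real.log n) ^ 8)
      = G u ^ 2 * ((n : ℝ) ^ 3 / (Real.log n) ^ 8)
        + (1875 * 1636 ^ 4 + 1) ^ 2 * (5 * (1 + CG)) * G u ^ 2 *
        ((n : ℝ) ^ 3 / (Real.log n) ^ 8) := by
    unfold C3
    ring
  rw [h12]
  linarith

end Pool.Agent.Lib.GoldbachGraph
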