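import Pool.Agent.Lib.GoldbachGraph.Codegree

/-!
# Moments of codegrees in the Goldbach graph
-/

namespace Pool.Agent.Lib.GoldbachGraph

open Finset Filter Pool.Agent.Lib.Sieve

/-! ### Average of `G ^ 8` -/

theorem exp_sub_one_le (t : ℝ) : Real.exp t - 1 ≤ t * Real.exp t := by
  have h1 := Real.add_one_le_exp (-t)
  have h2 : Real.exp (-t) * Real.exp t = 1 := by rw [← Real.exp_add]; simp
  have h3 : 0 < Real.exp t := Real.exp_pos t
  nlinarith

theorem g4_pow_le {p : ℕ} (hp : p.Prime) : g4 p ^ 8 - 1 ≤ 64 * Real.exp 6 / p := by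
  have hp0 : (0 : ℝ) < p := by exact_mod_cast hp.pos
  unfold g4
  split_ifs with h
  · have hp11 : (11 : ℝ) ≤ p := by exact_mod_cast h
    have ht0 : 0 < 1 / (p : ℝ) := by positivity
    have ht1 : 1 / (p : ℝ) ≤ 1 / 11 := one_div_le_one_div_of_le (by norm_num) hp11
    have h1 := exp_neg_two_mul_le ht0.le (by linarith : 1 / (p : ℝ) ≤ 1 / 2)
    have h2 : 0 < 1 - 1 / (p : ℝ) := by linarith
    have h3 : (1 - 1 / (p : ℝ))⁻¹ ≤ Real.exp (2 * (1 / p)) := by
      rw [inv_le_comm₀ h2 (Real.exp_pos _), ← Real.exp_neg]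
      exact h1
    have h4 : ((((1 - 1 / (p : ℝ)) ^ 4)⁻¹) ^ 8) = ((1 - 1 / (p : ℝ))⁻¹) ^ 32 := by
      rw [inv_pow, inv_pow, ← pow_mul]
    rw [h4]
    have h5 : ((1 - 1 / (p : ℝ))⁻¹) ^ 32 ≤ Real.exp (64 / p) := by
      calc ((1 - 1 / (p : ℝ))⁻¹) ^ 32 ≤ (Real.exp (2 * (1 / p))) ^ 32 :=
            pow_le_pow_left₀ (by positivity) h3 32
        _ = Real.exp (64 / p) := by
            rw [← Real.exp_nat_mul]
            congr 1
            push_cast
            ring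
    have h6 := exp_sub_one_le (64 / p)
    have h7 : Real.exp (64 / p) ≤ Real.exp 6 := by
      apply Real.exp_le_exp.mpr
      rw [div_le_iff₀ hp0]
      linarith
    have h8 : (64 / (p : ℝ)) * Real.exp (64 / p) ≤ (64 / p) * Real.exp 6 :=
      mul_le_mul_of_nonneg_left h7 (by positivity)
    have h9 : 64 * Real.exp 6 / p = (64 / (p : ℝ)) * Real.exp 6 := by ring
    rw [h9]
    linarith
  · have : 0 ≤ 64 * Real.exp 6 / (p : ℝ) := by positivity
    simpa using this

/-- The constant bounding the average of `G ^ 8`. -/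
noncomputable def CG : ℝ := Real.exp (64 * Real.exp 6 * ∑' n : ℕ, 1 / (n : ℝ) ^ 2)

theorem CG_pos : 0 < CG := Real.exp_pos _

theorem sum_G_pow (N : ℕ) : ∑ m ∈ Finset.Icc 1 N, G m ^ 8 ≤ CG * N := by
  have h := sum_prod_primeFactors_le' (64 * Real.exp 6) (by positivity)
    (fun p => if p.Prime then g4 p ^ 8 - 1 else 0)
    (fun p => by
      split_ifs
      · have := one_le_pow₀ (g4_ge_one p) (n := 8)
        linarith
      · exact le_rfl)
    (fun p hp => by
      rw [if_pos hp]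
      exact g4_pow_le hp) N
  have h1 : ∀ m ∈ Finset.Icc 1 N, G m ^ 8
      = ∏ p ∈ m.primeFactors, (1 + if p.Prime then g4 p ^ 8 - 1 else 0) := by
    intro m _
    unfold G
    rw [← Finset.prod_pow]
    refine Finset.prod_congr rfl fun p hp => ?_
    rw [if_pos (Nat.prime_of_mem_primeFactors hp)]
    ring
  rw [Finset.sum_congr rfl h1]
  unfold CG
  linarith

theorem G_zero : G 0 = 1 := by
  simp [G]

/-- `S N = ∑_{m ≤ N} G m ^ 8`. -/
noncomputable def SG (N : ℕ) : ℝ := ∑ m ∈ Finset.range (N + 1), G m ^ 8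

theorem SG_le (N : ℕ) (hN : 1 ≤ N) : SG N ≤ (1 + CG) * N := by
  unfold SG
  have h1 : Finset.range (N + 1) = insert 0 (Finset.Icc 1 N) := by
    ext m
    simp only [Finset.mem_range, Finset.mem_insert, Finset.mem_Icc]
    omega
  rw [h1, Finset.sum_insert (by simp), G_zero]
  have h2 := sum_G_pow N
  have h3 : (1 : ℝ) ≤ N := by exact_mod_cast hN
  nlinarith

theorem Gpow_nonneg (m : ℕ) : 0 ≤ G m ^ 8 :=
  pow_nonneg (zero_le_one.trans (G_ge_one m)) 8

theorem sum_le_SG {s : Finset ℕ} {N : ℕ} (φ : ℕ → ℕ) (hφ : ∀ v ∈ s, φ v ≤ N)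
    (hinj : ∀ a ∈ s, ∀ b ∈ s, φ a = φ b → a = b) : ∑ v ∈ s, G (φ v) ^ 8 ≤ SG N := by
  unfold SG
  have h1 : ∑ v ∈ s, G (φ v) ^ 8 = ∑ m ∈ s.image φ, G m ^ 8 := by
    rw [Finset.sum_image]
    intro a ha b hb hab
    exact hinj a ha b hb hab
  rw [h1]
  apply Finset.sum_le_sum_of_subset_of_nonneg
  · intro m hm
    obtain ⟨v, hv, rfl⟩ := Finset.mem_image.mp hm
    exact Finset.mem_range.mpr (Nat.lt_succ_of_le (hφ v hv))
  · intro m _ _
    exact Gpow_nonneg m

theorem sum_pairs (n : ℕ) (hn : 1 ≤ n) :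
    ∑ u ∈ Finset.Icc 1 n, ∑ v ∈ Finset.Icc 1 n,
      (G u ^ 8 + G v ^ 8 + G (Nat.dist u v) ^ 8 + G (u + v) ^ 8) ≤ 6 * (1 + CG) * (n : ℝ) ^ 2 := by
  have hS := SG_le n hn
  have hS2 := SG_le (2 * n) (by omega)
  push_cast at hS2
  have hinner : ∀ u ∈ Finset.Icc 1 n, ∑ v ∈ Finset.Icc 1 n,
      (G u ^ 8 + G v ^ 8 + G (Nat.dist u v) ^ 8 + G (u + v) ^ 8)
      ≤ n * G u ^ 8 + 3 * SG n + SG (2 * n) := by
    intro u hu
    rw [Finset.mem_Icc] at hu
    rw [Finset.sum_add_distrib, Finset.sum_add_distrib, Finset.sum_add_distrib]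
    have a1 : ∑ _v ∈ Finset.Icc 1 n, G u ^ 8 = n * G u ^ 8 := by
      rw [Finset.sum_const, nsmul_eq_mul, Nat.card_Icc]
      simp
    have a2 : ∑ v ∈ Finset.Icc 1 n, G v ^ 8 ≤ SG n :=
      sum_le_SG (fun v => v) (fun v hv => (Finset.mem_Icc.mp hv).2) (fun a _ b _ h => h)
    have a3 : ∑ v ∈ Finset.Icc 1 n, G (Nat.dist u v) ^ 8 ≤ SG n + SG n := by
      rw [← Finset.sum_filter_add_sum_filter_not (Finset.Icc 1 n) (fun v => v ≤ u)]
      apply add_le_add
      · apply sum_le_SG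
        · intro v hv
          rw [Finset.mem_filter, Finset.mem_Icc] at hv
          unfold Nat.dist
          omega
        · intro a ha b hb hab
          rw [Finset.mem_filter, Finset.mem_Icc] at ha hb
          unfold Nat.dist at hab
          omega
      · apply sum_le_SG
        · intro v hv
          rw [Finset.mem_filter, Finset.mem_Icc] at hv
          unfold Nat.dist
          omega
        · intro a ha b hb hab
          rw [Finset.mem_filter, Finset.mem_Icc] at ha hb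
          unfold Nat.dist at hab
          omega
    have a4 : ∑ v ∈ Finset.Icc 1 n, G (u + v) ^ 8 ≤ SG (2 * n) := by
      apply sum_le_SG
      · intro v hv
        rw [Finset.mem_Icc] at hv
        omega
      · intro a _ b _ hab
        omega
    rw [a1]
    linarith
  refine (Finset.sum_le_sum hinner).trans ?_
  rw [Finset.sum_add_distrib, Finset.sum_add_distrib, ← Finset.mul_sum, Finset.sum_const,
    Finset.sum_const, Nat.card_Icc, nsmul_eq_mul, nsmul_eq_mul]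
  have a5 : ∑ u ∈ Finset.Icc 1 n, G u ^ 8 ≤ SG n :=
    sum_le_SG (fun v => v) (fun v hv => (Finset.mem_Icc.mp hv).2) (fun a _ b _ h => h)
  have hnn : (0 : ℝ) ≤ n := Nat.cast_nonneg n
  have h1 : ((n + 1 - 1 : ℕ) : ℝ) = n := by simp
  rw [h1]
  have h2 : (n : ℝ) * (∑ u ∈ Finset.Icc 1 n, G u ^ 8) + n * (3 * SG n) + n * SG (2 * n)
      ≤ n * ((1 + CG) * n) + n * (3 * ((1 + CG) * n)) + n * ((1 + CG) * (2 * n)) := by
    apply add_le_add
    · apply add_le_add
      · exact mul_le_mul_of_nonneg_left (a5.trans hS) hnn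
      · exact mul_le_mul_of_nonneg_left (by linarith) hnn
    · exact mul_le_mul_of_nonneg_left hS2 hnn
  refine h2.trans (le_of_eq ?_)
  ring

/-! ### Eventual inequalities -/

theorem eventually_log_pow : ∀ᶠ n : ℕ in atTop, (Real.log n) ^ 8 ≤ n := by
  have h1 := (Real.isLittleO_pow_log_id_atTop (n := 8)).bound (c := 1) one_pos
  have h2 := tendsto_natCast_atTop_atTop.eventually h1
  filter_upwards [h2, eventually_ge_atTop 1] with n hn hn1
  have hlog : 0 ≤ Real.log n := Real.log_natCast_nonneg n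
  rw [Real.norm_of_nonneg (by positivity), one_mul] at hn
  simpa using hn

theorem eventually_rpow : ∀ᶠ n : ℕ in atTop,
    7 * (n : ℝ) ^ ((1 : ℝ) / 818) * (Real.log n) ^ 4 ≤ n := by
  have h1 : ∀ᶠ n : ℕ in atTop, (7 : ℝ) ≤ (n : ℝ) ^ ((408 : ℝ) / 818) := by
    have := (tendsto_rpow_atTop (by norm_num : (0 : ℝ) < 408 / 818)).comp
      (tendsto_natCast_atTop_atTop (R := ℝ))
    exact this.eventually_ge_atTop 7
  filter_upwards [h1, eventually_log_pow, eventually_ge_atTop 1] with n hn hlog8 hn1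
  have hn0 : (0 : ℝ) < n := by exact_mod_cast hn1
  have hlog : 0 ≤ Real.log n := Real.log_natCast_nonneg n
  have h2 : (Real.log n) ^ 4 ≤ (n : ℝ) ^ ((1 : ℝ) / 2) := by
    have h3 : ((Real.log n) ^ 4) ^ 2 ≤ ((n : ℝ) ^ ((1 : ℝ) / 2)) ^ 2 := by
      rw [← pow_mul, ← Real.rpow_natCast ((n : ℝ) ^ ((1 : ℝ) / 2)) 2, ← Real.rpow_mul hn0.le]
      norm_num
      exact hlog8
    exact (pow_le_pow_iff_left₀ (by positivity) (by positivity) (by norm_num)).mp h3
  calc 7 * (n : ℝ) ^ ((1 : ℝ) / 818) * (Real.log n) ^ 4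
      ≤ (n : ℝ) ^ ((408 : ℝ) / 818) * (n : ℝ) ^ ((1 : ℝ) / 818) * (n : ℝ) ^ ((1 : ℝ) / 2) := by
        apply mul_le_mul
        · apply mul_le_mul_of_nonneg_right hn (by positivity)
        · exact h2
        · positivity
        · positivity
    _ = n := by
        rw [← Real.rpow_add hn0, ← Real.rpow_add hn0]
        norm_num

/-- The sieve bound with `z = n^{1/818}`. -/
theorem eventually_codeg_le : ∀ᶠ n : ℕ in atTop, ∀ u ∈ Finset.Icc 1 n, ∀ v ∈ Finset.Icc 1 n,
    u ≠ v → (codeg n u v : ℝ) ≤ (1875 * 1636 ^ 4 + 1) * (n / (Real.log n) ^ 4) *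
      (G u * G v * G (Nat.dist u v) * G (u + v)) := by
  filter_upwards [eventually_rpow, eventually_ge_atTop (2 ^ 1636)] with n hrp hn u hu v hv huv
  rw [Finset.mem_Icc] at hu hv
  have hn1 : (1 : ℕ) ≤ n := le_trans (Nat.one_le_two_pow) hn
  have hn0 : (0 : ℝ) < n := by exact_mod_cast hn1
  set t : ℝ := (n : ℝ) ^ ((1 : ℝ) / 1636) with ht
  have ht2 : 2 ≤ t := by
    have h1 : ((2 : ℝ) ^ 1636) ≤ n := by exact_mod_cast hn
    have h2 : (2 : ℝ) = ((2 : ℝ) ^ 1636) ^ ((1 : ℝ) / 1636) := by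
      rw [← Real.rpow_natCast, ← Real.rpow_mul (by norm_num)]
      norm_num
    rw [h2]
    exact Real.rpow_le_rpow (by positivity) h1 (by norm_num)
  have htt : (n : ℝ) ^ ((1 : ℝ) / 818) = t ^ 2 := by
    rw [ht, ← Real.rpow_natCast, ← Real.rpow_mul hn0.le]
    norm_num
  set z : ℕ := ⌊(n : ℝ) ^ ((1 : ℝ) / 818)⌋₊ with hz
  have hzle : (z : ℝ) ≤ (n : ℝ) ^ ((1 : ℝ) / 818) := Nat.floor_le (by positivity)
  have hzge : t ≤ z := by
    have h1 : (n : ℝ) ^ ((1 : ℝ) / 818) < z + 1 := Nat.lt_floor_add_one _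
    rw [htt] at h1
    nlinarith
  have hz2 : 2 ≤ z := by
    have : (2 : ℝ) ≤ z := ht2.trans hzge
    exact_mod_cast this
  have hzn : z ^ 818 ≤ n := by
    have h1 : (z : ℝ) ^ 818 ≤ n := by
      calc (z : ℝ) ^ 818 ≤ ((n : ℝ) ^ ((1 : ℝ) / 818)) ^ 818 :=
            pow_le_pow_left₀ (Nat.cast_nonneg _) hzle _
        _ = n := by
            rw [← Real.rpow_natCast, ← Real.rpow_mul hn0.le]
            norm_num
    exact_mod_cast h1
  have h := codeg_le n z u v hz2 hzn (by omega) (by omega) huv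
  have hlogn : 0 < Real.log n := by
    apply Real.log_pos
    have h1 : 1 < n := lt_of_lt_of_le (Nat.one_lt_two_pow (by norm_num)) hn
    exact_mod_cast h1
  have hlogz : Real.log n / 1636 ≤ Real.log z := by
    have h1 : Real.log t ≤ Real.log z := Real.log_le_log (by linarith) hzge
    rw [ht, Real.log_rpow hn0] at h1
    linarith
  set GG := G u * G v * G (Nat.dist u v) * G (u + v) with hGG
  have hGG1 : 1 ≤ GG := by
    have a := G_ge_one
    exact one_le_mul_of_one_le_of_one_le (one_le_mul_of_one_le_of_one_le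
      (one_le_mul_of_one_le_of_one_le (a _) (a _)) (a _)) (a _)
  have h1 : 1875 * (n : ℝ) / (Real.log z) ^ 4 ≤ 1875 * 1636 ^ 4 * (n / (Real.log n) ^ 4) := by
    have h2 : (Real.log n / 1636) ^ 4 ≤ (Real.log z) ^ 4 :=
      pow_le_pow_left₀ (by positivity) hlogz 4
    calc 1875 * (n : ℝ) / (Real.log z) ^ 4 ≤ 1875 * (n : ℝ) / (Real.log n / 1636) ^ 4 :=
          div_le_div_of_nonneg_left (by positivity) (by positivity) h2
      _ = 1875 * 1636 ^ 4 * (n / (Real.log n) ^ 4) := by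
          rw [div_pow]
          field_simp
  have h3 : 7 * (z : ℝ) ≤ (n / (Real.log n) ^ 4) * GG := by
    have h4 : 7 * (z : ℝ) ≤ n / (Real.log n) ^ 4 := by
      rw [le_div_iff₀ (by positivity)]
      refine le_trans ?_ hrp
      apply mul_le_mul_of_nonneg_right _ (by positivity)
      linarith
    have h5 : 0 ≤ (n : ℝ) / (Real.log n) ^ 4 := by positivity
    nlinarith
  have h6 : 1875 * (n : ℝ) / (Real.log z) ^ 4 * GG
      ≤ 1875 * 1636 ^ 4 * (n / (Real.log n) ^ 4) * GG :=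
    mul_le_mul_of_nonneg_right h1 (by linarith)
  calc (codeg n u v : ℝ) ≤ 1875 * n / (Real.log z) ^ 4 * GG + 7 * z := h
    _ ≤ 1875 * 1636 ^ 4 * (n / (Real.log n) ^ 4) * GG + (n / (Real.log n) ^ 4) * GG :=
        add_le_add h6 h3
    _ = (1875 * 1636 ^ 4 + 1) * (n / (Real.log n) ^ 4) * GG := by ring

/-- The constant of the second moment. -/
noncomputable def C2 : ℝ := 1 + (1875 * 1636 ^ 4 + 1) ^ 2 * (6 * (1 + CG))

theorem C2_pos : 0 < C2 := by
  unfold C2
  have := CG_pos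
  positivity

/-- Second moment of the codegree. -/
theorem eventually_second_moment : ∀ᶠ n : ℕ in atTop,
    ∑ u ∈ Finset.Icc 1 n, ∑ v ∈ Finset.Icc 1 n, (codeg n u v : ℝ) ^ 2
      ≤ C2 * ((n : ℝ) ^ 4 / (Real.log n) ^ 8) := by
  filter_upwards [eventually_codeg_le, eventually_log_pow, eventually_ge_atTop 3]
    with n hcod hlog8 hn
  have hn0 : (0 : ℝ) < n := by
    have : 0 < n := by omega
    exact_mod_cast this
  have hlogn : 0 < Real.log n := by
    apply Real.log_pos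
    have : 1 < n := by omega
    exact_mod_cast this
  set A : ℝ := (1875 * 1636 ^ 4 + 1) * (n / (Real.log n) ^ 4) with hA
  have hA0 : 0 ≤ A := by positivity
  have hpt : ∀ u ∈ Finset.Icc 1 n, ∀ v ∈ Finset.Icc 1 n, (codeg n u v : ℝ) ^ 2
      ≤ (if u = v then (n : ℝ) ^ 2 else 0) +
        A ^ 2 * (G u ^ 8 + G v ^ 8 + G (Nat.dist u v) ^ 8 + G (u + v) ^ 8) := by
    intro u hu v hv
    have hnn : 0 ≤ A ^ 2 * (G u ^ 8 + G v ^ 8 + G (Nat.dist u v) ^ 8 + G (u + v) ^ 8) := by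
      have h1 := Gpow_nonneg u
      have h2 := Gpow_nonneg v
      have h3 := Gpow_nonneg (Nat.dist u v)
      have h4 := Gpow_nonneg (u + v)
      positivity
    by_cases huv : u = v
    · rw [if_pos huv]
      have h1 : (codeg n u v : ℝ) ≤ n := by
        have : codeg n u v ≤ n := by
          unfold codeg
          refine (Finset.card_filter_le _ _).trans ?_
          rw [Nat.card_Icc]
          omega
        exact_mod_cast this
      have h2 : (codeg n u v : ℝ) ^ 2 ≤ (n : ℝ) ^ 2 := pow_le_pow_left₀ (Nat.cast_nonneg _) h1 2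
      linarith
    · rw [if_neg huv, zero_add]
      have h1 := hcod u hu v hv huv
      have h2 : (codeg n u v : ℝ) ^ 2
          ≤ (A * (G u * G v * G (Nat.dist u v) * G (u + v))) ^ 2 :=
        pow_le_pow_left₀ (Nat.cast_nonneg _) h1 2
      refine h2.trans ?_
      rw [mul_pow]
      apply mul_le_mul_of_nonneg_left _ (by positivity)
      have key : ∀ a b c d : ℝ, (a * b * c * d) ^ 2 ≤ a ^ 8 + b ^ 8 + c ^ 8 + d ^ 8 := by
        intro a b c d
        nlinarith [sq_nonneg (a ^ 2 * b ^ 2 - c ^ 2 * d ^ 2), sq_nonneg (a ^ 4 - b ^ 4),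
          sq_nonneg (c ^ 4 - d ^ 4), sq_nonneg (a ^ 4), sq_nonneg (b ^ 4), sq_nonneg (c ^ 4),
          sq_nonneg (d ^ 4)]
      exact key _ _ _ _
  have hsum := Finset.sum_le_sum fun u hu => Finset.sum_le_sum (hpt u hu)
  refine hsum.trans ?_
  have h1 : ∀ u ∈ Finset.Icc 1 n, ∑ v ∈ Finset.Icc 1 n,
      ((if u = v then (n : ℝ) ^ 2 else 0) +
        A ^ 2 * (G u ^ 8 + G v ^ 8 + G (Nat.dist u v) ^ 8 + G (u + v) ^ 8))
      = (n : ℝ) ^ 2 + A ^ 2 * ∑ v ∈ Finset.Icc 1 n,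
        (G u ^ 8 + G v ^ 8 + G (Nat.dist u v) ^ 8 + G (u + v) ^ 8) := by
    intro u hu
    rw [Finset.sum_add_distrib, Finset.sum_ite_eq, if_pos hu, Finset.mul_sum]
  rw [Finset.sum_congr rfl h1, Finset.sum_add_distrib, Finset.sum_const, Nat.card_Icc,
    ← Finset.mul_sum, nsmul_eq_mul]
  have h2 := mul_le_mul_of_nonneg_left (sum_pairs n (by omega)) (by positivity : 0 ≤ A ^ 2)
  have h3 : ((n + 1 - 1 : ℕ) : ℝ) = n := by simp
  rw [h3]
  have h4 : (n : ℝ) * n ^ 2 ≤ (n : ℝ) ^ 4 / (Real.log n) ^ 8 := by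
    rw [le_div_iff₀ (by positivity)]
    calc (n : ℝ) * n ^ 2 * (Real.log n) ^ 8 ≤ (n : ℝ) * n ^ 2 * n :=
          mul_le_mul_of_nonneg_left hlog8 (by positivity)
      _ = (n : ℝ) ^ 4 := by ring
  have h5 : A ^ 2 * (6 * (1 + CG) * (n : ℝ) ^ 2)
      = (1875 * 1636 ^ 4 + 1) ^ 2 * (6 * (1 + CG)) * ((n : ℝ) ^ 4 / (Real.log n) ^ 8) := by
    rw [hA]
    field_simp
  unfold C2
  rw [h5] at h2
  linarith

end Pool.Agent.Lib.GoldbachGraph
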