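import Mathlib

/-!
# Packing of balls of radius two in a graph
-/

set_option linter.unusedSectionVars false

namespace Pool.Agent.Lib.GoldbachGraph

open Finset

section

variable {V : Type*} [Finite V] {H : SimpleGraph V} {m : ℝ}

theorem packing (hball : ∀ x, (∃ y, H.Adj x y) → m ≤ ({w | H.edist x w ≤ 2}.ncard : ℝ))
    (R : Finset V) (hR : ∀ x ∈ R, ∃ y, H.Adj x y)
    (hfar : ∀ x ∈ R, ∀ y ∈ R, x ≠ y → 5 ≤ H.edist x y) :
    (R.card : ℝ) * m ≤ Nat.card V := by
  classical
  have := Fintype.ofFinite V
  let B : V → Finset V := fun x => (Finset.univ.filter fun w => H.edist x w ≤ 2)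
  have hB : ∀ x, ((B x).card : ℝ) = ({w | H.edist x w ≤ 2}.ncard : ℝ) := by
    intro x
    rw [← Set.ncard_coe_finset]
    simp [B]
  have hdisj : ∀ x ∈ R, ∀ y ∈ R, x ≠ y → Disjoint (B x) (B y) := by
    intro x hx y hy hxy
    rw [Finset.disjoint_left]
    intro w hw hw'
    simp only [B, Finset.mem_filter, Finset.mem_univ, true_and] at hw hw'
    have h1 := hfar x hx y hy hxy
    have h2 : H.edist x y ≤ 2 + 2 := by
      refine (SimpleGraph.edist_triangle (v := w)).trans ?_
      apply add_le_add hw
      rw [SimpleGraph.edist_comm]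
      exact hw'
    have h3 : (5 : ℕ∞) ≤ 2 + 2 := h1.trans h2
    norm_num at h3
  have h1 : ((R.biUnion B).card : ℝ) = ∑ x ∈ R, ((B x).card : ℝ) := by
    rw [Finset.card_biUnion hdisj]
    push_cast
    rfl
  have h2 : ((R.biUnion B).card : ℝ) ≤ Nat.card V := by
    rw [Nat.card_eq_fintype_card]
    exact_mod_cast Finset.card_le_univ _
  calc (R.card : ℝ) * m = ∑ _x ∈ R, m := by rw [Finset.sum_const, nsmul_eq_mul]
    _ ≤ ∑ x ∈ R, ((B x).card : ℝ) := Finset.sum_le_sum fun x hx => by
        rw [hB x]
        exact hball x (hR x hx)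
    _ ≤ Nat.card V := by rw [← h1]; exact h2

/-- Distances inside components are bounded. -/
theorem dist_bound (hm : 0 < m)
    (hball : ∀ x, (∃ y, H.Adj x y) → m ≤ ({w | H.edist x w ≤ 2}.ncard : ℝ))
    {x y : V} (hxy : H.Reachable x y) :
    (H.dist x y : ℝ) * m ≤ 5 * Nat.card V := by
  classical
  obtain ⟨p, hp⟩ := hxy.exists_walk_length_eq_dist
  set D := H.dist x y with hD
  by_cases hD0 : D = 0
  · rw [hD0]
    have : (0 : ℝ) ≤ Nat.card V := Nat.cast_nonneg _
    push_cast
    linarith
  -- positions on the geodesic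
  have hed : H.edist x y = D := by
    rw [hD, SimpleGraph.Reachable.coe_dist_eq_edist hxy]
  have hpos : ∀ i ≤ D, (i : ℕ∞) ≤ H.edist x (p.getVert i) := by
    intro i hi
    have h1 : H.edist (p.getVert i) y ≤ ((D - i : ℕ) : ℕ∞) := by
      have h2 := (p.drop i).edist_le
      rw [SimpleGraph.Walk.drop_length, hp] at h2
      exact h2
    have h3 : (D : ℕ∞) ≤ H.edist x (p.getVert i) + ((D - i : ℕ) : ℕ∞) := by
      rw [← hed]
      exact (SimpleGraph.edist_triangle (v := p.getVert i)).trans (add_le_add le_rfl h1)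
    have h4 : (D : ℕ∞) = (i : ℕ∞) + ((D - i : ℕ) : ℕ∞) := by
      rw [← Nat.cast_add]
      congr 1
      omega
    rw [h4] at h3
    exact (ENat.add_le_add_iff_right (ENat.natCast_ne_top _)).mp h3
  have hle : ∀ i, H.edist x (p.getVert i) ≤ (i : ℕ∞) := by
    intro i
    have h2 := (p.take i).edist_le
    refine h2.trans ?_
    rw [SimpleGraph.Walk.take_length]
    exact_mod_cast min_le_left _ _
  have hfar : ∀ i j, i < j → j ≤ D → ((j - i : ℕ) : ℕ∞) ≤ H.edist (p.getVert i) (p.getVert j) := by
    intro i j hij hj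
    have h1 := hpos j hj
    have h2 : (j : ℕ∞) ≤ (i : ℕ∞) + H.edist (p.getVert i) (p.getVert j) :=
      h1.trans ((SimpleGraph.edist_triangle (v := p.getVert i)).trans (add_le_add (hle i) le_rfl))
    have h4 : (j : ℕ∞) = (i : ℕ∞) + ((j - i : ℕ) : ℕ∞) := by
      rw [← Nat.cast_add]
      congr 1
      omega
    rw [h4] at h2
    exact (ENat.add_le_add_iff_left (ENat.natCast_ne_top _)).mp h2
  set R := (Finset.range (D / 5 + 1)).image (fun i => p.getVert (5 * i)) with hR
  have hfar5 : ∀ i j, i < j → j < D / 5 + 1 →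
      (5 : ℕ∞) ≤ H.edist (p.getVert (5 * i)) (p.getVert (5 * j)) := by
    intro i j hij hj
    refine le_trans ?_ (hfar (5 * i) (5 * j) (by omega) (by omega))
    have : 5 ≤ 5 * j - 5 * i := by omega
    exact_mod_cast this
  have hcard : R.card = D / 5 + 1 := by
    rw [hR, Finset.card_image_of_injOn, Finset.card_range]
    intro i hi j hj hij
    simp only [Finset.coe_range, Set.mem_Iio] at hi hj
    by_contra hne
    rcases Nat.lt_or_gt_of_ne hne with h | h
    · have := hfar5 i j h hj
      simp only at hij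
      rw [hij, SimpleGraph.edist_self] at this
      simp at this
    · have := hfar5 j i h hi
      simp only at hij
      rw [hij, SimpleGraph.edist_self] at this
      simp at this
  have hadj : ∀ i ≤ D, ∃ w, H.Adj (p.getVert i) w := by
    intro i hi
    by_cases hiD : i < D
    · exact ⟨_, p.adj_getVert_succ (by rw [hp]; exact hiD)⟩
    · have : i = (D - 1) + 1 := by omega
      rw [this]
      exact ⟨_, (p.adj_getVert_succ (by rw [hp]; omega)).symm⟩
  have hpack := packing hball R
    (fun v hv => by
      obtain ⟨i, hi, rfl⟩ := Finset.mem_image.mp hv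
      rw [Finset.mem_range] at hi
      exact hadj _ (by omega))
    (fun v hv w hw hvw => by
      obtain ⟨i, hi, rfl⟩ := Finset.mem_image.mp hv
      obtain ⟨j, hj, rfl⟩ := Finset.mem_image.mp hw
      rw [Finset.mem_range] at hi hj
      rcases Nat.lt_trichotomy i j with h | h | h
      · exact hfar5 i j h hj
      · exact absurd (by rw [h]) hvw
      · rw [SimpleGraph.edist_comm]
        exact hfar5 j i h hi)
  rw [hcard] at hpack
  have h5 : (D : ℝ) ≤ 5 * ((D / 5 + 1 : ℕ) : ℝ) := by
    have : D ≤ 5 * (D / 5 + 1) := by omega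
    exact_mod_cast this
  calc (D : ℝ) * m ≤ 5 * ((D / 5 + 1 : ℕ) : ℝ) * m := mul_le_mul_of_nonneg_right h5 hm.le
    _ = 5 * (((D / 5 + 1 : ℕ) : ℝ) * m) := by ring
    _ ≤ 5 * Nat.card V := mul_le_mul_of_nonneg_left hpack (by norm_num)

/-- A nontrivial component contains an edge. -/
theorem exists_adj_of_nontrivial {c : H.ConnectedComponent} (hc : c.supp.Nontrivial) :
    ∃ x ∈ c.supp, ∃ y, H.Adj x y := by
  obtain ⟨x, hx, y, hy, hxy⟩ := hc
  refine ⟨x, hx, ?_⟩
  have hr : H.Reachable x y := by
    rw [SimpleGraph.ConnectedComponent.mem_supp_iff] at hx hy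
    exact SimpleGraph.ConnectedComponent.exact (hx.trans hy.symm)
  obtain ⟨p⟩ := hr
  cases p with
  | nil => exact absurd rfl hxy
  | cons h _ => exact ⟨_, h⟩

/-- The number of nontrivial components is bounded. -/
theorem card_components
    (hball : ∀ x, (∃ y, H.Adj x y) → m ≤ ({w | H.edist x w ≤ 2}.ncard : ℝ)) :
    ({c : H.ConnectedComponent | c.supp.Nontrivial}.ncard : ℝ) * m ≤ Nat.card V := by
  classical
  have hfin : Finite H.ConnectedComponent := inferInstance
  have hex : ∀ c : {c : H.ConnectedComponent // c.supp.Nontrivial}, ∃ x ∈ c.1.supp, ∃ y, H.Adj x y :=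
    fun c => exists_adj_of_nontrivial c.2
  choose f hf hf' using hex
  have := Fintype.ofFinite {c : H.ConnectedComponent // c.supp.Nontrivial}
  have hinj : Function.Injective f := by
    intro c c' h
    apply Subtype.ext
    have h1 := hf c
    have h2 := hf c'
    rw [SimpleGraph.ConnectedComponent.mem_supp_iff] at h1 h2
    rw [← h1, ← h2, h]
  have hpack := packing hball (Finset.univ.image f)
    (fun v hv => by
      obtain ⟨c, _, rfl⟩ := Finset.mem_image.mp hv
      exact hf' c)
    (fun v hv w hw hvw => by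
      obtain ⟨c, _, rfl⟩ := Finset.mem_image.mp hv
      obtain ⟨c', _, rfl⟩ := Finset.mem_image.mp hw
      have hne : c ≠ c' := fun h => hvw (by rw [h])
      have hnr : ¬ H.Reachable (f c) (f c') := by
        intro hr
        apply hne
        apply Subtype.ext
        have h1 := hf c
        have h2 := hf c'
        rw [SimpleGraph.ConnectedComponent.mem_supp_iff] at h1 h2
        rw [← h1, ← h2]
        exact SimpleGraph.ConnectedComponent.sound hr
      rw [SimpleGraph.edist_eq_top_of_not_reachable hnr]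
      exact le_top)
  rw [Finset.card_image_of_injective _ hinj, Finset.card_univ] at hpack
  have h1 : {c : H.ConnectedComponent | c.supp.Nontrivial}.ncard
      = Fintype.card {c : H.ConnectedComponent // c.supp.Nontrivial} := by
    rw [← Nat.card_eq_fintype_card]
    rfl
  rw [h1]
  exact hpack

/-- Nontrivial components are large. -/
theorem component_large
    (hball : ∀ x, (∃ y, H.Adj x y) → m ≤ ({w | H.edist x w ≤ 2}.ncard : ℝ))
    {c : H.ConnectedComponent} (hc : c.supp.Nontrivial) : m ≤ (c.supp.ncard : ℝ) := by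
  obtain ⟨x, hx, hx'⟩ := exists_adj_of_nontrivial hc
  refine (hball x hx').trans ?_
  have : {w | H.edist x w ≤ 2} ⊆ c.supp := by
    intro w hw
    rw [SimpleGraph.ConnectedComponent.mem_supp_iff] at hx ⊢
    rw [← hx]
    apply SimpleGraph.ConnectedComponent.sound
    have h1 : H.edist x w ≠ ⊤ := by
      intro h
      rw [Set.mem_ofPred_eq, h] at hw
      exact absurd hw (by simp)
    exact (SimpleGraph.reachable_of_edist_ne_top h1).symm
  exact_mod_cast Set.ncard_le_ncard this (Set.toFinite _)

/-- Twice the number of edges is the number of ordered adjacent pairs. -/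
theorem two_mul_edges (G : SimpleGraph V) :
    {p : V × V | G.Adj p.1 p.2}.ncard = 2 * G.edgeSet.ncard := by
  classical
  have := Fintype.ofFinite V
  have h1 := G.dart_card_eq_twice_card_edges
  have h2 : Fintype.card G.Dart = {p : V × V | G.Adj p.1 p.2}.ncard := by
    rw [← Nat.card_eq_fintype_card]
    have e : G.Dart ≃ {p : V × V | G.Adj p.1 p.2} :=
      { toFun := fun d => ⟨d.toProd, d.adj⟩
        invFun := fun p => ⟨p.1, p.2⟩
        left_inv := fun d => rfl
        right_inv := fun p => rfl }
    rw [Nat.card_congr e]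
    rfl
  have h3 : G.edgeFinset.card = G.edgeSet.ncard := by
    rw [← Set.ncard_coe_finset, SimpleGraph.coe_edgeFinset]
  rw [← h2, h1, h3]

end

end Pool.Agent.Lib.GoldbachGraph
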