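import Pool.Agent.Lib.GoldbachGraph.Moments

/-!
# A positive proportion of pairs have a common neighbour
-/

namespace Pool.Agent.Lib.GoldbachGraph

open Finset Filter Pool.Agent.Lib.Sieve

/-- Degree inside `[1, n]`. -/
def hdeg (n x : ℕ) : ℕ := ((Finset.Icc 1 n).filter fun u => hadj x u).card

theorem sum_codeg (n : ℕ) :
    ∑ u ∈ Finset.Icc 1 n, ∑ v ∈ Finset.Icc 1 n, codeg n u v
      = ∑ x ∈ Finset.Icc 1 n, hdeg n x ^ 2 := by
  unfold codeg hdeg
  simp_rw [Finset.card_filter]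
  calc ∑ u ∈ Finset.Icc 1 n, ∑ v ∈ Finset.Icc 1 n, ∑ x ∈ Finset.Icc 1 n,
        (if hadj x u ∧ hadj x v then 1 else 0)
      = ∑ u ∈ Finset.Icc 1 n, ∑ x ∈ Finset.Icc 1 n, ∑ v ∈ Finset.Icc 1 n,
        (if hadj x u ∧ hadj x v then 1 else 0) := by
        refine Finset.sum_congr rfl fun u _ => Finset.sum_comm
    _ = ∑ x ∈ Finset.Icc 1 n, ∑ u ∈ Finset.Icc 1 n, ∑ v ∈ Finset.Icc 1 n,
        (if hadj x u ∧ hadj x v then 1 else 0) := Finset.sum_comm
    _ = ∑ x ∈ Finset.Icc 1 n, (∑ u ∈ Finset.Icc 1 n, if hadj x u then 1 else 0) ^ 2 := by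
        refine Finset.sum_congr rfl fun x _ => ?_
        rw [sq, Finset.sum_mul_sum]
        refine Finset.sum_congr rfl fun u _ => Finset.sum_congr rfl fun v _ => ?_
        by_cases h1 : hadj x u <;> by_cases h2 : hadj x v <;> simp [h1, h2]

/-- The odd primes up to `n`. -/
def oddPrimes (n : ℕ) : Finset ℕ := (primesUpTo n).erase 2

theorem mem_oddPrimes {n p : ℕ} : p ∈ oddPrimes n ↔ p ≠ 2 ∧ p.Prime ∧ p ≤ n := by
  unfold oddPrimes
  rw [Finset.mem_erase, mem_primesUpTo]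

theorem odd_of_mem {n p : ℕ} (h : p ∈ oddPrimes n) : p % 2 = 1 := by
  rw [mem_oddPrimes] at h
  exact Nat.odd_iff.mp (h.2.1.odd_of_ne_two h.1)

/-- Pairs of distinct odd primes give adjacent pairs. -/
theorem card_pairs_le (n : ℕ) :
    (oddPrimes n).card * (oddPrimes n).card - (oddPrimes n).card ≤ ∑ x ∈ Finset.Icc 1 n, hdeg n x := by
  have h1 : ∑ x ∈ Finset.Icc 1 n, hdeg n x
      = ((Finset.Icc 1 n ×ˢ Finset.Icc 1 n).filter fun q => hadj q.1 q.2).card := by
    unfold hdeg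
    rw [Finset.card_filter, Finset.sum_product]
    refine Finset.sum_congr rfl fun x _ => ?_
    rw [Finset.card_filter]
  rw [h1, ← Finset.offDiag_card]
  apply Finset.card_le_card_of_injOn
    (fun q : ℕ × ℕ => if q.2 < q.1 then ((q.1 - q.2) / 2, (q.1 + q.2) / 2)
      else ((q.1 + q.2) / 2, (q.2 - q.1) / 2))
  · rintro ⟨p, q⟩ hpq
    simp only [Finset.coe_offDiag, Set.mem_offDiag, Finset.mem_coe] at hpq
    obtain ⟨hp, hq, hne⟩ := hpq
    have hp1 := odd_of_mem hp
    have hq1 := odd_of_mem hq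
    rw [mem_oddPrimes] at hp hq
    simp only [Finset.coe_filter, Finset.mem_product, Finset.mem_Icc, Set.mem_ofPred_eq]
    by_cases hlt : q < p
    · rw [if_pos hlt]
      have e1 : (p - q) / 2 + (p + q) / 2 = p := by omega
      have e2 : Nat.dist ((p - q) / 2) ((p + q) / 2) = q := by
        unfold Nat.dist
        omega
      refine ⟨⟨⟨by omega, by omega⟩, ⟨by omega, by omega⟩⟩, ?_⟩
      unfold hadj
      simp only
      rw [e1, e2]
      exact ⟨hp.2.1, Nat.odd_iff.mpr hp1, hq.2.1, Nat.odd_iff.mpr hq1⟩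
    · rw [if_neg hlt]
      have e1 : (p + q) / 2 + (q - p) / 2 = q := by omega
      have e2 : Nat.dist ((p + q) / 2) ((q - p) / 2) = p := by
        unfold Nat.dist
        omega
      refine ⟨⟨⟨by omega, by omega⟩, ⟨by omega, by omega⟩⟩, ?_⟩
      unfold hadj
      simp only
      rw [e1, e2]
      exact ⟨hq.2.1, Nat.odd_iff.mpr hq1, hp.2.1, Nat.odd_iff.mpr hp1⟩
  · rintro ⟨p, q⟩ hpq ⟨p', q'⟩ hpq' heq
    simp only [Finset.coe_offDiag, Set.mem_offDiag, Finset.mem_coe] at hpq hpq'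
    have hp1 := odd_of_mem hpq.1
    have hq1 := odd_of_mem hpq.2.1
    have hp1' := odd_of_mem hpq'.1
    have hq1' := odd_of_mem hpq'.2.1
    have hp3 := (mem_oddPrimes.mp hpq.1).2.1.two_le
    have hq3 := (mem_oddPrimes.mp hpq.2.1).2.1.two_le
    have hp3' := (mem_oddPrimes.mp hpq'.1).2.1.two_le
    have hq3' := (mem_oddPrimes.mp hpq'.2.1).2.1.two_le
    simp only at heq
    rw [Prod.mk.injEq]
    split_ifs at heq with c1 c2 c2 <;>
    · rw [Prod.mk.injEq] at heq
      omega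

theorem eventually_oddPrimes : ∀ᶠ n : ℕ in atTop,
    (n : ℝ) / (4 * Real.log n) ≤ (oddPrimes n).card := by
  have h1 := (Real.isLittleO_log_id_atTop).bound (c := 1 / 100) (by norm_num)
  have h2 := (tendsto_natCast_atTop_atTop (R := ℝ)).eventually h1
  filter_upwards [h2, eventually_ge_atTop 1000] with n hlog hn
  have hn' : (1000 : ℝ) ≤ n := by exact_mod_cast hn
  have hn0 : (0 : ℝ) < n := by linarith
  have hlogn : 0 < Real.log n := Real.log_pos (by linarith)
  rw [Real.norm_of_nonneg hlogn.le] at hlog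
  simp only [id_eq, Real.norm_natCast] at hlog
  have hpi := Chebyshev.pi_ge n
  have hcard : ((oddPrimes n).card : ℝ) = (Nat.primeCounting n : ℝ) - 1 := by
    have h3 : (oddPrimes n).card = (primesUpTo n).card - 1 := by
      unfold oddPrimes
      rw [Finset.card_erase_of_mem]
      rw [mem_primesUpTo]
      exact ⟨Nat.prime_two, by omega⟩
    have h4 : (primesUpTo n).card = Nat.primeCounting n := by
      unfold primesUpTo Nat.primeCounting Nat.primeCounting'
      rw [Nat.count_eq_card_filter_range]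
    have h5 : 1 ≤ (primesUpTo n).card := by
      apply Finset.card_pos.mpr
      exact ⟨2, mem_primesUpTo.mpr ⟨Nat.prime_two, by omega⟩⟩
    rw [h3, Nat.cast_sub h5, h4]
    norm_num
  rw [hcard]
  have hlog1 : Real.log (n + 1) ≤ Real.log n + 1 := by
    have h6 : ((n : ℝ) + 1) ≤ n * Real.exp 1 := by
      have := Real.exp_one_gt_d9
      nlinarith
    calc Real.log (n + 1) ≤ Real.log (n * Real.exp 1) := Real.log_le_log (by linarith) h6
      _ = Real.log n + 1 := by rw [Real.log_mul hn0.ne' (Real.exp_pos _).ne', Real.log_exp]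
  have hlog2 := Real.log_two_gt_d9
  have h7 : (n : ℝ) / (4 * Real.log n) + 1 ≤ (n * Real.log 2 - Real.log (n + 1)) / Real.log n := by
    rw [le_div_iff₀ hlogn]
    have h8 : ((n : ℝ) / (4 * Real.log n) + 1) * Real.log n = n / 4 + Real.log n := by
      field_simp
    rw [h8]
    nlinarith
  linarith

/-- Lower bound for the sum of the degrees. -/
theorem eventually_sum_hdeg : ∀ᶠ n : ℕ in atTop,
    (n : ℝ) ^ 2 / (32 * (Real.log n) ^ 2) ≤ ∑ x ∈ Finset.Icc 1 n, (hdeg n x : ℝ) := by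
  have h1 := (Real.isLittleO_log_id_atTop).bound (c := 1 / 100) (by norm_num)
  have h2 := (tendsto_natCast_atTop_atTop (R := ℝ)).eventually h1
  filter_upwards [eventually_oddPrimes, h2, eventually_ge_atTop 1000] with n hodd hlog hn
  have hn' : (1000 : ℝ) ≤ n := by exact_mod_cast hn
  have hn0 : (0 : ℝ) < n := by linarith
  have hlogn : 0 < Real.log n := Real.log_pos (by linarith)
  rw [Real.norm_of_nonneg hlogn.le] at hlog
  simp only [id_eq, Real.norm_natCast] at hlog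
  set m := (oddPrimes n).card with hm
  have hm2 : (2 : ℝ) ≤ m := by
    refine le_trans ?_ hodd
    rw [le_div_iff₀ (by positivity)]
    linarith
  have hcard := card_pairs_le n
  rw [← hm] at hcard
  have hmm : m ≤ m * m := Nat.le_mul_self m
  have h3 : (m : ℝ) * m - m ≤ ∑ x ∈ Finset.Icc 1 n, (hdeg n x : ℝ) := by
    have h4 : ((m * m - m : ℕ) : ℝ) ≤ ((∑ x ∈ Finset.Icc 1 n, hdeg n x : ℕ) : ℝ) := by
      exact_mod_cast hcard
    rw [Nat.cast_sub hmm] at h4
    push_cast at h4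
    exact h4
  refine le_trans ?_ h3
  have h5 : (m : ℝ) ^ 2 / 2 ≤ m * m - m := by nlinarith
  refine le_trans ?_ h5
  have h6 : ((n : ℝ) / (4 * Real.log n)) ^ 2 ≤ (m : ℝ) ^ 2 :=
    pow_le_pow_left₀ (by positivity) hodd 2
  have h7 : (n : ℝ) ^ 2 / (32 * (Real.log n) ^ 2) = ((n : ℝ) / (4 * Real.log n)) ^ 2 / 2 := by
    rw [div_pow, mul_pow]
    field_simp
    norm_num
  rw [h7]
  linarith

/-- Lower bound for the first moment of the codegree. -/
theorem eventually_first_moment : ∀ᶠ n : ℕ in atTop,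
    (n : ℝ) ^ 3 / (1024 * (Real.log n) ^ 4)
      ≤ ∑ u ∈ Finset.Icc 1 n, ∑ v ∈ Finset.Icc 1 n, (codeg n u v : ℝ) := by
  filter_upwards [eventually_sum_hdeg, eventually_ge_atTop 3] with n hdeg' hn
  have hn0 : (0 : ℝ) < n := by
    have : 0 < n := by omega
    exact_mod_cast this
  have hlogn : 0 < Real.log n := by
    apply Real.log_pos
    have : 1 < n := by omega
    exact_mod_cast this
  have h1 : ∑ u ∈ Finset.Icc 1 n, ∑ v ∈ Finset.Icc 1 n, (codeg n u v : ℝ)
      = ∑ x ∈ Finset.Icc 1 n, (hdeg n x : ℝ) ^ 2 := by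
    exact_mod_cast sum_codeg n
  rw [h1]
  have h2 := sq_sum_le_card_mul_sum_sq (s := Finset.Icc 1 n) (f := fun x => (hdeg n x : ℝ))
  rw [Nat.card_Icc] at h2
  have h3 : ((n + 1 - 1 : ℕ) : ℝ) = n := by simp
  rw [h3] at h2
  have h4 : ((n : ℝ) ^ 2 / (32 * (Real.log n) ^ 2)) ^ 2
      ≤ (∑ x ∈ Finset.Icc 1 n, (hdeg n x : ℝ)) ^ 2 :=
    pow_le_pow_left₀ (by positivity) hdeg' 2
  have h5 : ((n : ℝ) ^ 2 / (32 * (Real.log n) ^ 2)) ^ 2
      = n * ((n : ℝ) ^ 3 / (1024 * (Real.log n) ^ 4)) := by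
    rw [div_pow, mul_pow]
    field_simp
    norm_num
  have h6 : (n : ℝ) * ((n : ℝ) ^ 3 / (1024 * (Real.log n) ^ 4))
      ≤ n * ∑ x ∈ Finset.Icc 1 n, (hdeg n x : ℝ) ^ 2 := by
    rw [← h5]
    exact h4.trans h2
  exact le_of_mul_le_mul_left h6 hn0

/-- The pairs with a common neighbour. -/
def goodPairs (n : ℕ) : Finset (ℕ × ℕ) :=
  (Finset.Icc 1 n ×ˢ Finset.Icc 1 n).filter fun q => 0 < codeg n q.1 q.2

/-- The proportion of good pairs. -/
noncomputable def c0 : ℝ := 1 / (1024 ^ 2 * C2)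

theorem c0_pos : 0 < c0 := by
  unfold c0
  have := C2_pos
  positivity

/-- A positive proportion of the pairs have a common neighbour. -/
theorem eventually_goodPairs : ∀ᶠ n : ℕ in atTop, c0 * (n : ℝ) ^ 2 ≤ (goodPairs n).card := by
  filter_upwards [eventually_first_moment, eventually_second_moment, eventually_ge_atTop 3]
    with n h1 h2 hn
  have hn0 : (0 : ℝ) < n := by
    have : 0 < n := by omega
    exact_mod_cast this
  have hlogn : 0 < Real.log n := by
    apply Real.log_pos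
    have : 1 < n := by omega
    exact_mod_cast this
  rw [← Finset.sum_product'] at h1 h2
  have h3 : ∑ q ∈ Finset.Icc 1 n ×ˢ Finset.Icc 1 n, (codeg n q.1 q.2 : ℝ)
      = ∑ q ∈ goodPairs n, (codeg n q.1 q.2 : ℝ) := by
    unfold goodPairs
    rw [Finset.sum_filter]
    refine Finset.sum_congr rfl fun q _ => ?_
    split_ifs with h
    · rfl
    · have : codeg n q.1 q.2 = 0 := by omega
      rw [this]
      simp
  have h4 : ∑ q ∈ goodPairs n, (codeg n q.1 q.2 : ℝ) ^ 2
      ≤ ∑ q ∈ Finset.Icc 1 n ×ˢ Finset.Icc 1 n, (codeg n q.1 q.2 : ℝ) ^ 2 := by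
    apply Finset.sum_le_sum_of_subset_of_nonneg (Finset.filter_subset _ _)
    intro q _ _
    positivity
  have h5 := sq_sum_le_card_mul_sum_sq (s := goodPairs n) (f := fun q => (codeg n q.1 q.2 : ℝ))
  rw [← h3] at h5
  have h6 : ((n : ℝ) ^ 3 / (1024 * (Real.log n) ^ 4)) ^ 2
      ≤ (goodPairs n).card * (C2 * ((n : ℝ) ^ 4 / (Real.log n) ^ 8)) := by
    calc ((n : ℝ) ^ 3 / (1024 * (Real.log n) ^ 4)) ^ 2
        ≤ (∑ q ∈ Finset.Icc 1 n ×ˢ Finset.Icc 1 n, (codeg n q.1 q.2 : ℝ)) ^ 2 :=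
          pow_le_pow_left₀ (by positivity) h1 2
      _ ≤ (goodPairs n).card * ∑ q ∈ goodPairs n, (codeg n q.1 q.2 : ℝ) ^ 2 := h5
      _ ≤ (goodPairs n).card * (C2 * ((n : ℝ) ^ 4 / (Real.log n) ^ 8)) :=
          mul_le_mul_of_nonneg_left (h4.trans h2) (Nat.cast_nonneg _)
  have hX : 0 < C2 * ((n : ℝ) ^ 4 / (Real.log n) ^ 8) := by
    have := C2_pos
    positivity
  have h7 : c0 * (n : ℝ) ^ 2 * (C2 * ((n : ℝ) ^ 4 / (Real.log n) ^ 8))
      = ((n : ℝ) ^ 3 / (1024 * (Real.log n) ^ 4)) ^ 2 := by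
    unfold c0
    have := C2_pos
    rw [div_pow, mul_pow]
    field_simp
  rw [← h7] at h6
  exact le_of_mul_le_mul_right h6 hX

/-- A vertex with many vertices at distance at most two. -/
theorem eventually_exists_center : ∀ᶠ n : ℕ in atTop, ∃ v ∈ Finset.Icc 1 n,
    c0 * (n : ℝ) ≤ ((Finset.Icc 1 n).filter fun u => 0 < codeg n u v).card := by
  filter_upwards [eventually_goodPairs, eventually_ge_atTop 3] with n h1 hn
  by_contra hcon
  push Not at hcon
  have hn0 : (0 : ℝ) < n := by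
    have : 0 < n := by omega
    exact_mod_cast this
  have h2 : ((goodPairs n).card : ℝ)
      = ∑ v ∈ Finset.Icc 1 n, (((Finset.Icc 1 n).filter fun u => 0 < codeg n u v).card : ℝ) := by
    unfold goodPairs
    rw [Finset.card_filter, Finset.sum_product_right]
    push_cast
    refine Finset.sum_congr rfl fun v _ => ?_
    rw [Finset.card_filter]
    push_cast
    rfl
  have h3 : ∑ v ∈ Finset.Icc 1 n, (((Finset.Icc 1 n).filter fun u => 0 < codeg n u v).card : ℝ)
      < ∑ _v ∈ Finset.Icc 1 n, c0 * (n : ℝ) := by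
    apply Finset.sum_lt_sum_of_nonempty
    · exact ⟨1, Finset.mem_Icc.mpr ⟨le_rfl, by omega⟩⟩
    · exact hcon
  rw [Finset.sum_const, Nat.card_Icc, nsmul_eq_mul] at h3
  have h4 : ((n + 1 - 1 : ℕ) : ℝ) = n := by simp
  rw [h4] at h3
  nlinarith

end Pool.Agent.Lib.GoldbachGraph
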